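import Mathlib

/-!
# The sizes of the parameters
-/

set_option autoImplicit false

namespace Pool.Agent.Lib.MP_8fac0f_nt.OY

theorem ar (n J w h k v vp κ G Jp K μ0 μ1 M0 M1 Kn : ℕ)
    (hv : v = 4 * G + Jp + 3 * (n + 2) + 2 * J + 9 + K) (hκ : κ = v + 4)
    (hvp : vp = Kn + κ + 4 * G + 2 * Jp + 2 * (n + 2) + 2 * J + 10 + K)
    (hμ1 : μ1 = w + h + (vp + 2 * (n + 2) + 4)) (hμ0 : μ0 = μ1 + κ) (hM : M0 = M1 + Kn)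
    (hk : k + w = (G + Jp) + (M0 + μ0))
    (hh : v + vp + 2 * G + Jp + 2 * (n + 2) + J + 10 ≤ h) (hw : h ≤ w) :
    ∃ E E1 T, μ1 = E + (3 * G + Jp + (n + 2) + 5) ∧ E = E1 + (n + J + 3 + J + K) ∧
      k = M1 + T ∧ vp ≤ T ∧ v + (n + 2) ≤ w ∧ G + (n + 2) ≤ w ∧ w ≤ μ1 ∧
      (w - v) + (μ1 + 2 - (w - (G + (n + 2)))) ≤ E1 ∧ w + 2 + (T + 1 - vp) ≤ E1 := by
  obtain ⟨T, hT⟩ : ∃ T, k = M1 + T := ⟨k - M1, by omega⟩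
  obtain ⟨d, hd⟩ : ∃ d, T + 1 = vp + d := ⟨T + 1 - vp, by omega⟩
  obtain ⟨E, hE⟩ : ∃ E, μ1 = E + (3 * G + Jp + (n + 2) + 5) :=
    ⟨μ1 - (3 * G + Jp + (n + 2) + 5), by omega⟩
  obtain ⟨E1, hE1⟩ : ∃ E1, E = E1 + (n + J + 3 + J + K) := ⟨E - (n + J + 3 + J + K), by omega⟩
  obtain ⟨a, ha⟩ : ∃ a, w = v + a := ⟨w - v, by omega⟩
  obtain ⟨b, hb⟩ : ∃ b, w = (G + (n + 2)) + b := ⟨w - (G + (n + 2)), by omega⟩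
  obtain ⟨c, hc⟩ : ∃ c, μ1 + 2 = b + c := ⟨μ1 + 2 - b, by omega⟩
  have e1 : w - v = a := by omega
  have e2 : w - (G + (n + 2)) = b := by omega
  have e3 : μ1 + 2 - b = c := by omega
  have e4 : T + 1 - vp = d := by omega
  refine ⟨E, E1, T, hE, hE1, hT, by omega, by omega, by omega, by omega, ?_, ?_⟩
  · rw [e1, e2, e3]; omega
  · rw [e4]; omega

theorem ar2 (n J w h k v vp κ G Jp K q μ0 μ1 M0 M1 Kn α : ℕ)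
    (hq : q = K + J + 3 * G + (n + 2) + 4)
    (hvp : vp = Kn + κ + 4 * G + 2 * Jp + 2 * (n + 2) + 2 * J + 10 + K)
    (hμ1 : μ1 = w + h + (vp + 2 * (n + 2) + 4)) (hμ0 : μ0 = μ1 + κ) (hM : M0 = M1 + Kn) (hn4 : μ0 ≤ M0)
    (hk : k + w = (G + Jp) + (M0 + μ0))
    (hh : v + vp + 2 * G + Jp + 2 * (n + 2) + J + 10 + q ≤ h) (hw : h ≤ w) (hα : α < G) :
    ∃ E, μ1 = E + (3 * G + Jp + (n + 2) + 5) ∧ (G + Jp) + (n + 2) + α + 5 ≤ w ∧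
      w + α + 2 ≤ μ1 ∧ E + 2 ≤ μ1 - ((G + Jp) + (n + 2) + 2 * α + 5) ∧
      K + J + (E - (J + K)) ≤ E ∧ K + J + (μ1 - w - 2 + (w - Jp - q)) ≤ E ∧
      G + (n + 2) + M0 + 3 + h + (n + 2) + vp + 1 ≤ k ∧ vp + w + 3 ≤ k ∧ w + α + 2 ≤ k ∧
      Jp + q ≤ w ∧ w + J + 2 + 1 ≤ μ1 := by
  obtain ⟨E, hE⟩ : ∃ E, μ1 = E + (3 * G + Jp + (n + 2) + 5) :=
    ⟨μ1 - (3 * G + Jp + (n + 2) + 5), by omega⟩
  obtain ⟨a, ha⟩ : ∃ a, w = Jp + q + a := ⟨w - Jp - q, by omega⟩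
  obtain ⟨b, hb⟩ : ∃ b, μ1 = w + 2 + b := ⟨μ1 - w - 2, by omega⟩
  have e1 : w - Jp - q = a := by omega
  have e2 : μ1 - w - 2 = b := by omega
  refine ⟨E, hE, by omega, by omega, by omega, by omega, ?_, by omega, by omega, by omega,
    by omega, by omega⟩
  rw [e1, e2]; omega

end Pool.Agent.Lib.MP_8fac0f_nt.OY
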