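import Pool.Agent.Lib.MP_8fac0f_nt.OW.Per2
import Pool.Agent.Lib.MP_8fac0f_nt.OW.Tot2

/-!
# The product over the cube is the product of the carries out of the first overlap
-/

set_option autoImplicit false

namespace Pool.Agent.Lib.MP_8fac0f_nt.OY

open Finset N OV OW

theorem cubeG (A : ℕ → ℕ) (n J h k v v' D t m : ℕ) (δ : ℕ → ℕ) (hJ : 1 ≤ J)
    (hδ : ∀ i, i < J → ∃ c, δ i = 2 ^ ((J - i) * h) * c)
    (hk1 : D + h + (n + 2) + v' + 1 ≤ k) (hk2 : v' + J * h + 3 ≤ k)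
    (ht : A 0 / 2 ^ k = t) (htw : t < 2 ^ (J * h))
    (hok : ∀ T ⊆ range J, ok A n J h k v v' (m + ∑ i ∈ T, δ i))
    (hΔ : ∀ T ⊆ range J, ∀ i < J, ∀ l ≤ n + 1, bb A (m + ∑ i ∈ T, δ i + δ i) l ≤
      bb A (m + ∑ i ∈ T, δ i) l + 2 ^ (D + (J - i) * h))
    (htop : ∀ T ⊆ range J, ∀ j, (j = k ∨ j = k + 1) → ∀ l, 1 ≤ l → l ≤ n + 1 →
      yy (bb A (m + ∑ i ∈ T, δ i)) j l / 2 ^ j < 2 ^ (J * h - v)) :
    Cb J m δ (fun x => sg (V (bb A x) k (n + 2)) * sg (V (bb A x) (k + 1) (n + 2))) =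
      Cb J m δ (psi A (J * h) k) := by
  have hfac : Cb J m δ (fun x => sg (V (bb A x) k (n + 2)) * sg (V (bb A x) (k + 1) (n + 2))) =
      Cb J m δ (fun x => (sg (bb A x 0 % 2 ^ k) * sg (bb A x 0 % 2 ^ (k + 1))) *
      (∏ l ∈ range (n + 2), Wf J h (yy (bb A x) k (l + 1)) * Wf J h (yy (bb A x) (k + 1) (l + 1))) *
      (∏ l ∈ range (n + 1), sg (bb A x (l + 1) / 2 ^ k % 2)) * psi A (J * h) k x) := by
    unfold Cb
    refine prod_congr rfl fun T hT => ?_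
    have hT' := mem_powerset.1 hT
    have hokT := hok T hT'
    have htopT := htop T hT'
    generalize m + ∑ i ∈ T, δ i = x at hokT htopT
    have hS : bb A x 1 / 2 ^ (J * h) % 2 ^ (k - J * h) + 1 < 2 ^ (k - J * h) := by
      have h1 := hokT.2.1 1 le_rfl (by omega)
      have e0 : 2 ^ k = 2 ^ (J * h) * 2 ^ (k - J * h) := by rw [← pow_add]; congr 1; omega
      have h2 : bb A x 1 / 2 ^ (J * h) % 2 ^ (k - J * h) = bb A x 1 % 2 ^ k / 2 ^ (J * h) := by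
        rw [e0, Nat.mod_mul_right_div_self]
      have h3 : 2 ^ (J * h) < 2 ^ (k - v') := Nat.pow_lt_pow_right (by norm_num) (by omega)
      rw [h2]
      have h4 : bb A x 1 % 2 ^ k / 2 ^ (J * h) * 2 ^ (J * h) ≤ bb A x 1 % 2 ^ k :=
        Nat.div_mul_le_self _ _
      by_contra hcon
      have h5 : 2 ^ (k - J * h) ≤ bb A x 1 % 2 ^ k / 2 ^ (J * h) + 1 := not_lt.1 hcon
      have h6 := Nat.mul_le_mul_left (2 ^ (J * h)) h5
      rw [← e0, mul_add, mul_one, mul_comm (2 ^ (J * h)) (bb A x 1 % 2 ^ k / 2 ^ (J * h))] at h6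
      omega
    have hcc : ∀ j, cc A (J * h) j x ≤ 1 := fun j => cc_le A (J * h) j x
    have ht2 : A 0 / 2 ^ (k + 1) ≤ t := by
      rw [pow_succ, ← Nat.div_div_eq_div_mul, ht]
      exact Nat.div_le_self _ _
    beta_reduce
    rw [fac (bb A x) n J h k (cc A (J * h) k x) (cc A (J * h) (k + 1) x) (by omega) ?_ ?_ ?_ ?_ ?_]
    · rfl
    · intro j hj l hl1 hl2
      have h1 := htopT j hj l hl1 hl2
      have h2 := hokT.1 (l + 1) (by omega) (by omega)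
      omega
    · have := hcc k
      omega
    · have := hcc (k + 1)
      omega
    · exact cc_spec A (J * h) k x (by rw [ht]; exact htw)
    · exact cc_spec A (J * h) (k + 1) x (lt_of_le_of_lt ht2 htw)
  rw [hfac, Cb_mul, Cb_mul, Cb_mul, Cb_prod, Cb_prod]
  -- the increments
  have hinc : ∀ T ⊆ range J, ∀ q < J, ∃ u : ℕ → ℕ, u 0 = 0 ∧
      (∀ l, bb A (m + ∑ i ∈ T, δ i + δ (J - 1 - q)) l =
        bb A (m + ∑ i ∈ T, δ i) l + 2 ^ (q * h + h) * u l) ∧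
      ∀ l ≤ n + 1, 2 ^ (q * h + h) * u l ≤ 2 ^ (D + (q * h + h)) := by
    intro T hT q hq
    obtain ⟨c, hc⟩ := hδ (J - 1 - q) (by omega)
    have e1 : (J - (J - 1 - q)) * h = q * h + h := by
      have : J - (J - 1 - q) = q + 1 := by omega
      rw [this]; ring
    rw [e1] at hc
    obtain ⟨u, hu0, hu⟩ := exists_u A (m + ∑ i ∈ T, δ i) (δ (J - 1 - q)) (q * h + h) c hc
    refine ⟨u, hu0, hu, fun l hl => ?_⟩
    have h1 := hΔ T hT (J - 1 - q) (by omega) l hl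
    rw [hu l, e1] at h1
    omega
  have hK : Cb J m δ (fun x => sg (bb A x 0 % 2 ^ k) * sg (bb A x 0 % 2 ^ (k + 1))) = 1 := by
    have hb0 : ∀ x, bb A x 0 = A 0 := fun x => by unfold bb; rw [pow_zero, mul_one]
    refine Cb_inv J m δ _ 0 hJ (fun x => ?_) (fun T _ _ => ?_)
    · have h1 := sg_sq (bb A x 0 % 2 ^ k)
      have h2 := sg_sq (bb A x 0 % 2 ^ (k + 1))
      linear_combination (sg (bb A x 0 % 2 ^ (k + 1)) * sg (bb A x 0 % 2 ^ (k + 1))) * h1 + h2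
    · simp only [hb0]
  have hW : ∀ j, (j = k ∨ j = k + 1) → ∀ l ∈ range (n + 2),
      Cb J m δ (fun x => Wf J h (yy (bb A x) j (l + 1))) = 1 := by
    intro j hj l hl
    have hl' := mem_range.1 hl
    unfold Wf
    rw [Cb_prod J m δ (range J) (fun q x => sg (yy (bb A x) j (l + 1) / 2 ^ (q * h) % 2 ^ h))]
    refine prod_eq_one fun q hq => ?_
    have hq' := mem_range.1 hq
    refine Cb_inv J m δ _ (J - 1 - q) (by omega) (fun x => sg_sq _) (fun T hT _ => ?_)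
    obtain ⟨u, hu0, hu, hub⟩ := hinc T hT q hq'
    rw [zone_step A n J h k v v' D (m + ∑ i ∈ T, δ i) (m + ∑ i ∈ T, δ i + δ (J - 1 - q)) q j
      (l + 1) u hq' hu0 hu hub hj (by omega) (hok T hT) (by omega) (by omega)]
  have hB : ∀ l ∈ range (n + 1),
      Cb J m δ (fun x => sg (bb A x (l + 1) / 2 ^ k % 2)) = 1 := by
    intro l hl
    have hl' := mem_range.1 hl
    refine Cb_inv J m δ _ (J - 1) (by omega) (fun x => sg_sq _) (fun T hT _ => ?_)
    obtain ⟨u, hu0, hu, hub⟩ := hinc T hT 0 (by omega)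
    rw [Nat.sub_zero] at hu
    have h1 := (hok T hT).2.1 (l + 1) (by omega) (by omega)
    have h2 := hub (l + 1) (by omega)
    have h3 : 2 ^ (D + (0 * h + h)) < 2 ^ (k - v') :=
      Nat.pow_lt_pow_right (by norm_num) (by rw [zero_mul]; omega)
    rw [bit_step _ _ _ k (hu (l + 1)) (by omega)]
  rw [hK, prod_congr rfl (fun l hl => by rw [Cb_mul, hW k (Or.inl rfl) l hl,
    hW (k + 1) (Or.inr rfl) l hl]), prod_congr rfl hB]
  simp


/-- No carry at any vertex. -/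
theorem psi_one (A : ℕ → ℕ) (J w k t m : ℕ) (δ : ℕ → ℕ) (ht : A 0 / 2 ^ k = t)
    (hr : ∀ T ⊆ range J, A 1 * (m + ∑ i ∈ T, δ i) % 2 ^ w + t < 2 ^ w) :
    Cb J m δ (psi A w k) = 1 := by
  have ht2 : A 0 / 2 ^ (k + 1) ≤ t := by
    rw [pow_succ, ← Nat.div_div_eq_div_mul, ht]
    exact Nat.div_le_self _ _
  unfold Cb
  refine prod_eq_one fun T hT => ?_
  have h1 := hr T (mem_powerset.1 hT)
  have hb1 : ∀ x, bb A x 1 = A 1 * x := fun x => by unfold bb; rw [pow_one]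
  unfold psi cc
  rw [hb1, ht, if_pos (by omega), if_pos (by omega)]
  exact sg_sq _

end Pool.Agent.Lib.MP_8fac0f_nt.OY
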