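import Mathlib

/-!
# Two linear forms in `m` are seldom both close to a multiple of `2 ^ w`
-/

set_option autoImplicit false

namespace Pool.Agent.Lib.MP_8fac0f_nt.OY

open Finset

theorem mod_dvd (a b : ℕ) : (b : ℤ) ∣ (a : ℤ) - ((a % b : ℕ) : ℤ) := by
  have h := Nat.div_add_mod a b
  refine ⟨((a / b : ℕ) : ℤ), ?_⟩
  have h1 : ((b * (a / b) + a % b : ℕ) : ℤ) = (a : ℤ) := by rw [h]
  push_cast at h1 ⊢
  linarith

theorem sep_step (A A' B α w q Jp G σ m1 m2 : ℕ) (hA1 : A = 2 ^ α * A')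
    (hαG : α ≤ G)
    (hsep : ∀ g : ℕ, 0 < g → g < 2 ^ (G + q) → ∀ β : ℤ, |β| < 2 ^ (w - Jp) →
      ¬ (2 ^ w : ℤ) ∣ (B : ℤ) * g - (A : ℤ) * β)
    (h1 : 2 ^ w < B * (m1 + σ) % 2 ^ w + 2 ^ (w - Jp))
    (h2 : 2 ^ w < B * (m2 + σ) % 2 ^ w + 2 ^ (w - Jp))
    (hf : A' * m1 % 2 ^ (w + 2) / 2 ^ q = A' * m2 % 2 ^ (w + 2) / 2 ^ q) :
    ¬ A' * m1 % 2 ^ (w + 2) < A' * m2 % 2 ^ (w + 2) := by
  intro hlt
  set s1 := A' * m1 % 2 ^ (w + 2) with hs1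
  set s2 := A' * m2 % 2 ^ (w + 2) with hs2
  have hq : s2 < s1 + 2 ^ q := by
    have h3 := Nat.div_add_mod s1 (2 ^ q)
    have h4 := Nat.div_add_mod s2 (2 ^ q)
    have h5 : s2 % 2 ^ q < 2 ^ q := Nat.mod_lt _ (by positivity)
    rw [hf] at h3
    omega
  obtain ⟨g, hg⟩ : ∃ g, s2 = s1 + g := ⟨s2 - s1, by omega⟩
  have hg0 : 0 < g := by omega
  have hgq : g < 2 ^ q := by omega
  set r1 := B * (m1 + σ) % 2 ^ w with hr1
  set r2 := B * (m2 + σ) % 2 ^ w with hr2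
  have hr1' : r1 < 2 ^ w := Nat.mod_lt _ (by positivity)
  have hr2' : r2 < 2 ^ w := Nat.mod_lt _ (by positivity)
  refine hsep (2 ^ α * g) (Nat.mul_pos (by positivity) hg0) ?_ ((r2 : ℤ) - r1) ?_ ?_
  · calc 2 ^ α * g < 2 ^ α * 2 ^ q := Nat.mul_lt_mul_of_pos_left hgq (by positivity)
      _ = 2 ^ (α + q) := (pow_add _ _ _).symm
      _ ≤ 2 ^ (G + q) := Nat.pow_le_pow_right (by norm_num) (by omega)
  · rw [abs_lt]
    have e1 : ((2 ^ w : ℕ) : ℤ) < ((r1 + 2 ^ (w - Jp) : ℕ) : ℤ) := by exact_mod_cast h1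
    have e2 : ((2 ^ w : ℕ) : ℤ) < ((r2 + 2 ^ (w - Jp) : ℕ) : ℤ) := by exact_mod_cast h2
    have e3 : (r1 : ℤ) < ((2 ^ w : ℕ) : ℤ) := by exact_mod_cast hr1'
    have e4 : (r2 : ℤ) < ((2 ^ w : ℕ) : ℤ) := by exact_mod_cast hr2'
    push_cast at e1 e2 e3 e4
    constructor <;> linarith
  · have d1 : (2 ^ w : ℤ) ∣ ((A' * m1 : ℕ) : ℤ) - s1 := by
      have := mod_dvd (A' * m1) (2 ^ (w + 2))
      rw [← hs1] at this
      refine dvd_trans ?_ this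
      push_cast
      exact pow_dvd_pow 2 (by omega)
    have d2 : (2 ^ w : ℤ) ∣ ((A' * m2 : ℕ) : ℤ) - s2 := by
      have := mod_dvd (A' * m2) (2 ^ (w + 2))
      rw [← hs2] at this
      refine dvd_trans ?_ this
      push_cast
      exact pow_dvd_pow 2 (by omega)
    have d3 : (2 ^ w : ℤ) ∣ ((B * (m1 + σ) : ℕ) : ℤ) - r1 := by
      have := mod_dvd (B * (m1 + σ)) (2 ^ w)
      rw [← hr1] at this
      push_cast at this ⊢
      exact this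
    have d4 : (2 ^ w : ℤ) ∣ ((B * (m2 + σ) : ℕ) : ℤ) - r2 := by
      have := mod_dvd (B * (m2 + σ)) (2 ^ w)
      rw [← hr2] at this
      push_cast at this ⊢
      exact this
    have hgz : (s2 : ℤ) = s1 + g := by rw [hg]; push_cast; ring
    have key : (B : ℤ) * ((2 ^ α * g : ℕ) : ℤ) - (A : ℤ) * ((r2 : ℤ) - r1) =
        2 ^ α * B * ((((A' * m1 : ℕ) : ℤ) - s1) - (((A' * m2 : ℕ) : ℤ) - s2)) +
        A * ((((B * (m2 + σ) : ℕ) : ℤ) - r2) - (((B * (m1 + σ) : ℕ) : ℤ) - r1)) := by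
      rw [hA1]
      push_cast
      rw [hgz]
      ring
    rw [key]
    exact dvd_add ((dvd_sub d1 d2).mul_left _) ((dvd_sub d4 d3).mul_left _)

theorem sparse (A A' B α w t μ1 q Jp G σ : ℕ) (hA1 : A = 2 ^ α * A') (hA' : Odd A')
    (hαG : α ≤ G) (hJw : Jp + q ≤ w) (hw : w + 2 ≤ μ1) (htJ : t < 2 ^ (w - Jp))
    (hsep : ∀ g : ℕ, 0 < g → g < 2 ^ (G + q) → ∀ β : ℤ, |β| < 2 ^ (w - Jp) →
      ¬ (2 ^ w : ℤ) ∣ (B : ℤ) * g - (A : ℤ) * β)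
    (Q : Finset ℕ) (hQ : ∀ m ∈ Q, m ∈ Ico (2 ^ μ1) (2 * 2 ^ μ1) ∧
      2 ^ (w + α) - t ≤ A * m % 2 ^ (w + α + 2) ∧ A * m % 2 ^ (w + α + 2) < 2 ^ (w + α) - t / 2 ∧
      2 ^ w < B * (m + σ) % 2 ^ w + 2 ^ (w - Jp)) :
    Q.card ≤ 2 ^ (μ1 - w - 2 + (w - Jp - q)) := by
  classical
  set f : ℕ → ℕ := fun m => A' * m % 2 ^ (w + 2) / 2 ^ q with hf
  have hscale : ∀ m, A * m % 2 ^ (w + α + 2) = 2 ^ α * (A' * m % 2 ^ (w + 2)) := fun m => by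
    have e1 : 2 ^ (w + α + 2) = 2 ^ α * 2 ^ (w + 2) := by rw [← pow_add]; congr 1; ring
    rw [hA1, e1, mul_assoc, Nat.mul_mod_mul_left]
  have hs : ∀ m ∈ Q, 2 ^ w - 2 ^ (w - Jp) ≤ A' * m % 2 ^ (w + 2) ∧
      A' * m % 2 ^ (w + 2) < 2 ^ w := by
    intro m hm
    obtain ⟨-, h1, h2, -⟩ := hQ m hm
    rw [hscale] at h1 h2
    have e1 : 2 ^ (w + α) = 2 ^ α * 2 ^ w := by rw [← pow_add]; congr 1; ring
    have p1 : 0 < 2 ^ α := by positivity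
    constructor
    · have h3 : 2 ^ α * (2 ^ w - 2 ^ (w - Jp)) ≤ 2 ^ α * (A' * m % 2 ^ (w + 2)) := by
        refine le_trans ?_ h1
        rw [e1, Nat.mul_sub]
        have h4 : t ≤ 2 ^ α * 2 ^ (w - Jp) := htJ.le.trans (Nat.le_mul_of_pos_left _ p1)
        omega
      exact Nat.le_of_mul_le_mul_left h3 p1
    · have h3 : 2 ^ α * (A' * m % 2 ^ (w + 2)) < 2 ^ α * 2 ^ w := by
        rw [← e1]; omega
      exact Nat.lt_of_mul_lt_mul_left h3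
  have himg : Q.image f ⊆ Ico (2 ^ (w - q) - 2 ^ (w - Jp - q)) (2 ^ (w - q)) := by
    intro y hy
    obtain ⟨m, hm, rfl⟩ := mem_image.1 hy
    obtain ⟨h1, h2⟩ := hs m hm
    have e1 : 2 ^ w = 2 ^ (w - q) * 2 ^ q := by rw [← pow_add]; congr 1; omega
    have e2 : 2 ^ (w - Jp) = 2 ^ (w - Jp - q) * 2 ^ q := by rw [← pow_add]; congr 1; omega
    refine mem_Ico.2 ⟨?_, ?_⟩
    · rw [hf]
      refine (Nat.le_div_iff_mul_le (by positivity)).2 ?_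
      rw [Nat.sub_mul, ← e1, ← e2]
      exact h1
    · rw [hf]
      refine Nat.div_lt_of_lt_mul ?_
      rw [mul_comm (2 ^ q), ← e1]
      exact h2
  have hfib : ∀ y ∈ Q.image f, (Q.filter fun m => f m = y).card ≤ 2 ^ (μ1 - w - 2) := by
    intro y hy
    have hmodeq : ∀ m1 ∈ Q, ∀ m2 ∈ Q, f m1 = f m2 → m1 % 2 ^ (w + 2) = m2 % 2 ^ (w + 2) := by
      intro m1 hm1 m2 hm2 h
      have g1 := sep_step A A' B α w q Jp G σ m1 m2 hA1 hαG hsep (hQ m1 hm1).2.2.2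
        (hQ m2 hm2).2.2.2 h
      have g2 := sep_step A A' B α w q Jp G σ m2 m1 hA1 hαG hsep (hQ m2 hm2).2.2.2
        (hQ m1 hm1).2.2.2 h.symm
      have g3 : A' * m1 ≡ A' * m2 [MOD 2 ^ (w + 2)] := by
        change A' * m1 % 2 ^ (w + 2) = A' * m2 % 2 ^ (w + 2)
        omega
      have hcop : Nat.Coprime (2 ^ (w + 2)) A' := (Nat.coprime_two_left.2 hA').pow_left _
      exact Nat.ModEq.cancel_left_of_coprime hcop g3
    have hcard : (Ico (2 ^ (μ1 - w - 2)) (2 * 2 ^ (μ1 - w - 2))).card = 2 ^ (μ1 - w - 2) := by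
      rw [Nat.card_Ico]; omega
    rw [← hcard]
    have e0 : 2 ^ μ1 = 2 ^ (μ1 - w - 2) * 2 ^ (w + 2) := by rw [← pow_add]; congr 1; omega
    refine card_le_card_of_injOn (fun m => m / 2 ^ (w + 2)) (fun m hm => ?_)
      (fun m1 h1 m2 h2 h => ?_)
    · obtain ⟨hm1, -⟩ := mem_filter.1 (mem_coe.1 hm)
      have h1 := mem_Ico.1 (hQ m hm1).1
      refine mem_coe.2 (mem_Ico.2 ⟨?_, ?_⟩)
      · refine (Nat.le_div_iff_mul_le (by positivity)).2 ?_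
        rw [← e0]; exact h1.1
      · refine Nat.div_lt_of_lt_mul ?_
        have e2 : 2 ^ (w + 2) * (2 * 2 ^ (μ1 - w - 2)) = 2 * 2 ^ μ1 := by rw [e0]; ring
        rw [e2]; exact h1.2
    · obtain ⟨g1, g2⟩ := mem_filter.1 (mem_coe.1 h1)
      obtain ⟨g3, g4⟩ := mem_filter.1 (mem_coe.1 h2)
      have g5 := hmodeq m1 g1 m2 g3 (g2.trans g4.symm)
      have g6 : m1 / 2 ^ (w + 2) = m2 / 2 ^ (w + 2) := h
      rw [← Nat.div_add_mod m1 (2 ^ (w + 2)), ← Nat.div_add_mod m2 (2 ^ (w + 2)), g5, g6]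
  refine (card_le_mul_card_image Q _ hfib).trans ?_
  rw [pow_add]
  refine Nat.mul_le_mul_left _ ((card_le_card himg).trans ?_)
  rw [Nat.card_Ico]
  exact tsub_tsub_le

end Pool.Agent.Lib.MP_8fac0f_nt.OY
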