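import Pool.Agent.Lib.MP_8fac0f_nt.OY.CubeG
import Pool.Agent.Lib.MP_8fac0f_nt.OY.Sparse
import Pool.Agent.Lib.MP_8fac0f_nt.OY.Arith

/-!
# Many good `m` for a good `x`, for a finite family of polynomials
-/

set_option autoImplicit false

namespace Pool.Agent.Lib.MP_8fac0f_nt.OY

open Finset Polynomial N OV OW

open Classical in
/-- The facts about one polynomial. -/
theorem facts (P : ℕ[X]) (n J h k v vp κ G Jp K x u μ0 μ1 : ℕ) (hd : P.natDegree = n + 2)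
    (hJ : 1 ≤ J) (hG : P.eval 2 < 2 ^ G) (hx1 : 2 ^ u ≤ x) (hu : μ0 = u + 1) (hx2 : x < 2 ^ μ0)
    (hxm : x ≡ 1 [MOD 2 ^ G]) (hv : v = 4 * G + Jp + 3 * (n + 2) + 2 * J + 9 + K) (hκ : κ = v + 4)
    (hvp : vp = (n + 2) * κ + 4 * G + 2 * Jp + 2 * (n + 2) + 2 * J + 10 + K)
    (hμ1 : μ1 = J * h + h + (vp + 2 * (n + 2) + 4)) (hμ0 : μ0 = μ1 + κ)
    (hk : k + J * h = (G + Jp) + (n + 2) * μ0)
    (hh : v + vp + 2 * G + Jp + 2 * (n + 2) + J + 10 ≤ h) :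
    hs P 0 x / 2 ^ k < 2 ^ (J * h - Jp) ∧
    (∀ z, z < 2 ^ (μ1 + 2) → ∀ j, (j = k ∨ j = k + 1) → ∀ l, 1 ≤ l → l ≤ n + 1 →
      yy (bb (fun l => hs P l x) z) j l / 2 ^ j < 2 ^ (J * h - v)) ∧
    ((Ico (2 ^ μ1) (2 ^ (μ1 + 2))).filter fun m => Odd m ∧
      ¬ ok (fun l => hs P l x) n J h k v vp m).card ≤
      2 ^ (μ1 - (3 * G + Jp + (n + 2) + 5) - (J + K)) := by
  have hx0 : 1 ≤ x := Nat.one_le_two_pow.trans hx1
  have hAu : ∀ l ≤ n + 2, hs P l x < 2 ^ G * x ^ (n + 2 - l) := fun l hl =>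
    (hs_upper P (n + 2) l x hd hl hx0).trans_lt (Nat.mul_lt_mul_of_pos_right hG (by positivity))
  have hAl : ∀ l ≤ n + 2, x ^ (n + 2 - l) ≤ hs P l x := fun l hl =>
    hs_lower P (n + 2) l x hd (by omega) hl
  have hAv : ∀ l ≤ n + 2, ¬ 2 ^ G ∣ hs P l x := fun l hl =>
    hs_val P (n + 2) l x G hd (by omega) hl hG hxm
  set A : ℕ → ℕ := fun l => hs P l x with hA
  have hJh : h ≤ J * h := Nat.le_mul_of_pos_left h hJ
  have hn1 : (n + 2) * μ0 = μ0 * (n + 1) + μ0 := by ring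
  have hn2 : μ0 * (n + 1) = μ1 * (n + 1) + κ * (n + 1) := by rw [hμ0]; ring
  have hn3 : (n + 2) * κ = κ * (n + 1) + κ := by ring
  have hn4 : μ0 ≤ μ0 * (n + 1) := Nat.le_mul_of_pos_right _ (Nat.succ_pos n)
  rw [hn1] at hk
  rw [hn3] at hvp
  set t := A 0 / 2 ^ k with ht
  have htJ : t < 2 ^ (J * h - Jp) := by
    refine Nat.div_lt_of_lt_mul ?_
    calc A 0 < 2 ^ G * x ^ (n + 2 - 0) := hAu 0 (Nat.zero_le _)
      _ ≤ 2 ^ G * (2 ^ μ0) ^ (n + 2) := Nat.mul_le_mul_left _ (Nat.pow_le_pow_left hx2.le _)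
      _ = 2 ^ k * 2 ^ (J * h - Jp) := by
          rw [← pow_mul, ← pow_add, ← pow_add]
          congr 1
          rw [mul_comm μ0, hn1]
          omega
  have htw : t < 2 ^ (J * h) := htJ.trans_le (Nat.pow_le_pow_right (by norm_num) (Nat.sub_le _ _))
  have hM2 : 2 ^ (μ1 + 2) = 4 * 2 ^ μ1 := by ring
  -- tops
  have hblk : ∀ z, z < 2 ^ (μ1 + 2) → ∀ l, 1 ≤ l → l ≤ n + 2 →
      bb A z l / 2 ^ k < 2 ^ (J * h - (v + 1)) := fun z hz l hl1 hl =>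
    top_bound A (n + 2) (G + Jp) (J * h) (v + 1) x μ0 μ1 k z l hl1 hl
      ((hAu l hl).trans_le (Nat.mul_le_mul_right _ (Nat.pow_le_pow_right (by norm_num)
        (Nat.le_add_right _ _)))) hx2 hz (by omega) (by rw [hk, hn1]) (by omega)
  have ht2 : ∀ j, (j = k ∨ j = k + 1) → A 0 / 2 ^ j < 2 ^ (J * h) := by
    rintro j (rfl | rfl)
    · exact htw
    · rw [pow_succ, ← Nat.div_div_eq_div_mul]
      exact lt_of_le_of_lt (Nat.div_le_self _ _) htw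
  have htop : ∀ z, z < 2 ^ (μ1 + 2) → ∀ j, (j = k ∨ j = k + 1) → ∀ l, 1 ≤ l → l ≤ n + 1 →
      yy (bb A z) j l / 2 ^ j < 2 ^ (J * h - v) := by
    intro z hz j hj l hl1 hl
    refine yy_top (bb A z) n j k (J * h) v (by rcases hj with rfl | rfl <;> omega) ?_ ?_
      (by omega) (by omega) l hl1 hl
    · have h1 := ht2 j hj
      have h2 : bb A z 0 = A 0 := by unfold bb; rw [pow_zero, mul_one]
      rwa [h2]
    · intro l' hl1' hl'
      have h1 := hblk z hz l' hl1' (by omega)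
      exact (Nat.lt_mul_div_succ (bb A z l') (by positivity : 0 < 2 ^ k)).trans_le
        (Nat.mul_le_mul_left _ h1)
  refine ⟨htJ, htop, ?_⟩
  have hx3 : 2 ^ μ1 ≤ x := (Nat.pow_le_pow_right (by norm_num) (by omega)).trans hx1
  obtain ⟨E, E1, T, a1, a2, a3, a4, a5, a6, a7, a8, a9⟩ := ar n J (J * h) h k v vp κ G Jp K μ0 μ1
    (μ0 * (n + 1)) (μ1 * (n + 1)) (κ * (n + 1)) hv hκ hvp hμ1 hμ0 hn2 hk hh hJh
  have hexc := exc_count A n J h k v vp G x μ1 T E1 hAl hx3 hAv a3 a4 a5 a6 a7 htop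
    (fun z hz l hl1 hl => (hblk z hz l hl1 (by clear * - hl; omega)).trans_le
        (Nat.pow_le_pow_right (by norm_num) (Nat.sub_le _ _))) a8 a9
  refine hexc.trans ?_
  rw [← pow_add]
  refine Nat.pow_le_pow_right (by norm_num) ?_
  clear * - a1 a2
  omega

end Pool.Agent.Lib.MP_8fac0f_nt.OY
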