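import Pool.Agent.Lib.MP_8fac0f_nt.OY.Facts

/-!
# Many good `m` for a good `x`, for a finite family of polynomials
-/

set_option autoImplicit false

namespace Pool.Agent.Lib.MP_8fac0f_nt.OY

open Finset Polynomial N OV OW

open Classical in
theorem perG (P : ℕ → ℕ[X]) (I : Finset ℕ) (i0 : ℕ) (hi0 : i0 ∈ I)
    (n J h k v vp κ G Jp K q x u μ0 μ1 : ℕ) (hd : ∀ i ∈ I, (P i).natDegree = n + 2)
    (hJ : 1 ≤ J) (hG : ∀ i ∈ I, (P i).eval 2 < 2 ^ G) (hK : I.card ≤ 2 ^ K)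
    (hx1 : 2 ^ u ≤ x) (hu : μ0 = u + 1) (hx2 : x < 2 ^ μ0)
    (hxm : x ≡ 1 [MOD 2 ^ G]) (hq : q = K + J + 3 * G + (n + 2) + 4)
    (hv : v = 4 * G + Jp + 3 * (n + 2) + 2 * J + 9 + K) (hκ : κ = v + 4)
    (hvp : vp = (n + 2) * κ + 4 * G + 2 * Jp + 2 * (n + 2) + 2 * J + 10 + K)
    (hμ1 : μ1 = J * h + h + (vp + 2 * (n + 2) + 4)) (hμ0 : μ0 = μ1 + κ)
    (hk : k + J * h = (G + Jp) + (n + 2) * μ0)
    (hh : v + vp + 2 * G + Jp + 2 * (n + 2) + J + 10 + q ≤ h)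
    (hxD : ∀ T ⊆ Icc 1 (J - 1), T.Nonempty →
      2 ^ (J * h - Jp) ≤ hs (P i0) 1 x * (∑ i ∈ T, 2 ^ ((J - i) * h)) % 2 ^ (J * h) ∧
      hs (P i0) 1 x * (∑ i ∈ T, 2 ^ ((J - i) * h)) % 2 ^ (J * h) + 2 ^ (J * h - Jp) ≤
        2 ^ (J * h))
    (hsep : ∀ i ∈ I, i ≠ i0 → ∀ g : ℕ, 0 < g → g < 2 ^ (G + q) → ∀ β : ℤ,
      |β| < 2 ^ (J * h - Jp) →
      ¬ (2 ^ (J * h) : ℤ) ∣ (hs (P i) 1 x : ℤ) * g - (hs (P i0) 1 x : ℤ) * β) :
    ∃ (S : Finset ℕ) (δ : ℕ → ℕ), 2 ^ (μ1 - (3 * G + Jp + (n + 2) + 4)) ≤ S.card ∧ ∀ m ∈ S,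
      (∀ T ⊆ range J, m + ∑ i ∈ T, δ i < 2 ^ (μ1 + 2)) ∧
      Cb J m δ (fun z => ∏ i ∈ I, (sg ((P i).eval (x + 2 ^ k * z)) *
        sg ((P i).eval (x + 2 ^ (k + 1) * z)))) = -1 := by
  have hx0 : 1 ≤ x := Nat.one_le_two_pow.trans hx1
  have hfacts := fun i (hi : i ∈ I) => facts (P i) n J h k v vp κ G Jp K x u μ0 μ1 (hd i hi) hJ
    (hG i hi) hx1 hu hx2 hxm hv hκ hvp hμ1 hμ0 hk (by clear * - hh; omega)
  have hV : ∀ i ∈ I, ∀ j z : ℕ, (P i).eval (x + 2 ^ j * z) =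
      V (bb (fun l => hs (P i) l x) z) j (n + 2) :=
    fun i hi j z => by
    rw [eval_shift (P i) (n + 2) (hd i hi).le x (2 ^ j * z)]
    unfold V bb hs
    refine sum_congr rfl fun l _ => ?_
    rw [mul_pow, pow_mul]
    ring
  have hAu : ∀ i ∈ I, ∀ l ≤ n + 2, hs (P i) l x < 2 ^ G * x ^ (n + 2 - l) := fun i hi l hl =>
    (hs_upper (P i) (n + 2) l x (hd i hi) hl hx0).trans_lt
      (Nat.mul_lt_mul_of_pos_right (hG i hi) (by positivity))
  have hAl : ∀ l ≤ n + 2, x ^ (n + 2 - l) ≤ hs (P i0) l x := fun l hl =>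
    hs_lower (P i0) (n + 2) l x (hd i0 hi0) (by omega) hl
  have hAv : ∀ l ≤ n + 2, ¬ 2 ^ G ∣ hs (P i0) l x := fun l hl =>
    hs_val (P i0) (n + 2) l x G (hd i0 hi0) (by omega) hl (hG i0 hi0) hxm
  have hA0 : hs (P i0) 1 x ≠ 0 := by
    have h1 := hAl 1 (by omega)
    have h2 : 0 < x ^ (n + 2 - 1) := by positivity
    omega
  obtain ⟨α, A', hA', hA1⟩ := Nat.exists_eq_two_pow_mul_odd hA0
  have hα : α < G := by
    by_contra hcon
    exact hAv 1 (by omega) (hA1 ▸ (pow_dvd_pow 2 (not_lt.1 hcon)).mul_right A')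
  obtain ⟨htJ, -, -⟩ := hfacts i0 hi0
  have hμ1' := hμ1
  -- sizes
  have hJh : h ≤ J * h := Nat.le_mul_of_pos_left h hJ
  have hn1 : (n + 2) * μ0 = μ0 * (n + 1) + μ0 := by ring
  have hn2 : μ0 * (n + 1) = μ1 * (n + 1) + κ * (n + 1) := by rw [hμ0]; ring
  have hn3 : (n + 2) * κ = κ * (n + 1) + κ := by ring
  have hn4 : μ0 ≤ μ0 * (n + 1) := Nat.le_mul_of_pos_right _ (Nat.succ_pos n)
  rw [hn1] at hk
  rw [hn3] at hvp
  obtain ⟨E, b1, b2, b3, b4, b5, b6, b7, b8, b9, b10, b11⟩ := ar2 n J (J * h) h k v vp κ G Jp K q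
    μ0 μ1 (μ0 * (n + 1)) (μ1 * (n + 1)) (κ * (n + 1)) α hq hvp hμ1 hμ0 hn2 hn4 hk hh hJh hα
  have b12 : μ1 - (3 * G + Jp + (n + 2) + 5) = E := by clear * - b1; omega
  have b13 : μ1 - (3 * G + Jp + (n + 2) + 4) = E + 1 := by clear * - b1; omega
  have b14 : G + Jp + (n + 2) ≤ J * h := by clear * - b2; omega
  have B4 : 4 * 2 ^ E ≤ 2 ^ (μ1 - ((G + Jp) + (n + 2) + 2 * α + 5)) := by
    calc 4 * 2 ^ E = 2 ^ (E + 2) := by rw [pow_add]; ring
      _ ≤ _ := Nat.pow_le_pow_right (by norm_num) b4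
  have B5 : 2 ^ (K + J + (E - (J + K))) ≤ 2 ^ E := Nat.pow_le_pow_right (by norm_num) b5
  have B6 : 2 ^ (K + J + (μ1 - J * h - 2 + (J * h - Jp - q))) ≤ 2 ^ E :=
    Nat.pow_le_pow_right (by norm_num) b6
  have B13 : 2 ^ (μ1 - (3 * G + Jp + (n + 2) + 4)) = 2 * 2 ^ E := by rw [b13, pow_succ']
  have hfZ : ∀ i ∈ I, ((Ico (2 ^ μ1) (2 ^ (μ1 + 2))).filter fun m => Odd m ∧
      ¬ ok (fun l => hs (P i) l x) n J h k v vp m).card ≤ 2 ^ (E - (J + K)) := fun i hi => by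
    have h1 := (hfacts i hi).2.2
    rw [b12] at h1
    exact h1
  clear b4 b5 b6 b12 b13
  set t := hs (P i0) 0 x / 2 ^ k with ht
  have htw : t < 2 ^ (J * h) := htJ.trans_le (Nat.pow_le_pow_right (by norm_num) (Nat.sub_le _ _))
  have htl : 2 ^ (J * h - (G + Jp) - (n + 2)) ≤ t :=
    beta_lower (hs (P i0) 0 x) (n + 2) (G + Jp) (J * h) x u k (hAl 0 (Nat.zero_le _)) hx1
      (by rw [hk, ← hu, hn1]) (by clear * - b14; omega)
  -- the shifts
  set δ : ℕ → ℕ := fun i => 2 ^ ((J - i) * h) * (if i = 0 then A' % 4 else 1) with hδ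
  have hg4 : A' % 4 < 4 := Nat.mod_lt _ (by norm_num)
  have hg1 : A' * (A' % 4) % 4 = 1 := by
    have h1 : A' % 4 = 1 ∨ A' % 4 = 3 := by
      obtain ⟨z, hz⟩ := hA'
      clear * - hz
      omega
    rw [Nat.mul_mod, Nat.mod_mod]
    rcases h1 with h1 | h1 <;> rw [h1]
  have hσ : ∀ T ⊆ range J, ∑ i ∈ T, δ i ≤ 2 ^ (J * h + J + 2) := fun T hT =>
    sum_delta_le J h (A' % 4) hg4.le T hT
  have hδle : ∀ i < J, δ i ≤ 2 ^ (J * h + J + 2) := fun i hi => by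
    have h1 := hσ {i} (singleton_subset_iff.2 (mem_range.2 hi))
    rwa [sum_singleton] at h1
  have hMbig : 2 ^ (J * h + J + 2) * 2 ≤ 2 ^ μ1 := by
    rw [← pow_succ]
    exact Nat.pow_le_pow_right (by norm_num) b11
  have hM2 : 2 ^ (μ1 + 2) = 4 * 2 ^ μ1 := by ring
  -- the lower bound
  set Low := (Ico (2 ^ μ1) (2 * 2 ^ μ1)).filter fun m => Odd m ∧
      2 ^ (J * h + α) - t ≤ hs (P i0) 1 x * m % 2 ^ (J * h + α + 2) ∧
      hs (P i0) 1 x * m % 2 ^ (J * h + α + 2) < 2 ^ (J * h + α) - t / 2 with hLow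
  have clow : 4 * 2 ^ E ≤ Low.card := by
    refine le_trans ?_ (lower2 (fun l => hs (P i0) l x) (G + Jp) (n + 2) (J * h) α A' t μ1 hA1 hA'
      htl htw b2 b3)
    exact B4
  -- exceptions
  set Z : ℕ → Finset ℕ := fun i => (Ico (2 ^ μ1) (2 ^ (μ1 + 2))).filter fun m => Odd m ∧
    ¬ ok (fun l => hs (P i) l x) n J h k v vp m with hZ
  have cZ : ∀ i ∈ I, (Z i).card ≤ 2 ^ (E - (J + K)) := hfZ
  set Qs : ℕ × Finset ℕ → Finset ℕ := fun p => Low.filter fun m =>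
    2 ^ (J * h) < hs (P p.1) 1 x * (m + ∑ i ∈ p.2, δ i) % 2 ^ (J * h) + 2 ^ (J * h - Jp) with hQs
  have cQ : ∀ p ∈ (I.erase i0) ×ˢ (range J).powerset,
      (Qs p).card ≤ 2 ^ (μ1 - J * h - 2 + (J * h - Jp - q)) := by
    intro p hp
    obtain ⟨hp1, -⟩ := mem_product.1 hp
    refine sparse (hs (P i0) 1 x) A' (hs (P p.1) 1 x) α (J * h) t μ1 q Jp G (∑ i ∈ p.2, δ i) hA1
      hA' hα.le b10 (by clear * - b3; omega) htJ
      (hsep p.1 (mem_of_mem_erase hp1) (ne_of_mem_erase hp1)) (Qs p) (fun m hm => ?_)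
    obtain ⟨h1, h2⟩ := mem_filter.1 hm
    obtain ⟨h3, -, h4, h5⟩ := mem_filter.1 h1
    exact ⟨h3, h4, h5, h2⟩
  set S := Low.filter fun m => (∀ i ∈ I, ∀ T ∈ (range J).powerset,
      ok (fun l => hs (P i) l x) n J h k v vp (m + ∑ i ∈ T, δ i)) ∧
      ∀ p ∈ (I.erase i0) ×ˢ (range J).powerset,
      hs (P p.1) 1 x * (m + ∑ i ∈ p.2, δ i) % 2 ^ (J * h) + 2 ^ (J * h - Jp) ≤ 2 ^ (J * h)
    with hS
  have heven : ∀ T ⊆ range J, Even (∑ i ∈ T, δ i) := fun T hT => by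
    refine even_iff_two_dvd.2 (dvd_sum fun i hi => ?_)
    have hi' := mem_range.1 (hT hi)
    refine Dvd.dvd.mul_right (dvd_pow_self 2 ?_) _
    have h1 : 1 ≤ J - i := by clear * - hi'; omega
    have h2 : 1 ≤ (J - i) * h := Nat.mul_pos h1 (by clear * - hh; omega)
    clear * - h2
    omega
  have hcov : Low ⊆ S ∪ (((I ×ˢ (range J).powerset).biUnion fun p =>
      (Ico (2 ^ μ1) (2 * 2 ^ μ1)).filter fun m => m + ∑ i ∈ p.2, δ i ∈ Z p.1) ∪
      ((I.erase i0) ×ˢ (range J).powerset).biUnion Qs) := by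
    intro m hm
    by_cases hmS : ∀ i ∈ I, ∀ T ∈ (range J).powerset,
      ok (fun l => hs (P i) l x) n J h k v vp (m + ∑ i ∈ T, δ i)
    · by_cases hmQ : ∀ p ∈ (I.erase i0) ×ˢ (range J).powerset,
        hs (P p.1) 1 x * (m + ∑ i ∈ p.2, δ i) % 2 ^ (J * h) + 2 ^ (J * h - Jp) ≤ 2 ^ (J * h)
      · exact mem_union_left _ (mem_filter.2 ⟨hm, hmS, hmQ⟩)
      · push Not at hmQ
        obtain ⟨p, hp, h1⟩ := hmQ
        exact mem_union_right _ (mem_union_right _ (mem_biUnion.2 ⟨p, hp, mem_filter.2 ⟨hm, h1⟩⟩))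
    · push Not at hmS
      obtain ⟨i, hi, T, hT, hnok⟩ := hmS
      have hT' := mem_powerset.1 hT
      obtain ⟨hm1, hm2, -, -⟩ := mem_filter.1 hm
      have hm3 := mem_Ico.1 hm1
      have h1 := hσ T hT'
      have g1 : 2 ^ μ1 ≤ m + ∑ i ∈ T, δ i := hm3.1.trans (Nat.le_add_right _ _)
      have g2 : m + ∑ i ∈ T, δ i < 2 ^ (μ1 + 2) := by clear * - hm3 h1 hMbig hM2; omega
      refine mem_union_right _ (mem_union_left _ (mem_biUnion.2 ⟨(i, T), mem_product.2 ⟨hi, hT⟩,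
        mem_filter.2 ⟨hm1, mem_filter.2
        ⟨mem_Ico.2 ⟨g1, g2⟩, hm2.add_even (heven T hT'), hnok⟩⟩⟩))
  have cT : ∀ p ∈ I ×ˢ (range J).powerset, ((Ico (2 ^ μ1) (2 * 2 ^ μ1)).filter fun m =>
      m + ∑ i ∈ p.2, δ i ∈ Z p.1).card ≤ 2 ^ (E - (J + K)) := fun p hp =>
    (card_le_card_of_injOn (fun m => m + ∑ i ∈ p.2, δ i)
      (fun m hm => (mem_filter.1 (mem_coe.1 hm)).2) (fun a _ b _ hab => by
        have h1 : a + ∑ i ∈ p.2, δ i = b + ∑ i ∈ p.2, δ i := hab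
        exact Nat.add_right_cancel h1)).trans (cZ p.1 (mem_product.1 hp).1)
  have c1 : ((I ×ˢ (range J).powerset).biUnion fun p =>
      (Ico (2 ^ μ1) (2 * 2 ^ μ1)).filter fun m => m + ∑ i ∈ p.2, δ i ∈ Z p.1).card ≤ 2 ^ E := by
    refine (card_biUnion_le_card_mul _ _ _ cT).trans ?_
    rw [card_product, card_powerset, card_range]
    calc I.card * 2 ^ J * 2 ^ (E - (J + K)) ≤ 2 ^ K * 2 ^ J * 2 ^ (E - (J + K)) :=
          Nat.mul_le_mul_right _ (Nat.mul_le_mul_right _ hK)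
      _ = 2 ^ (K + J + (E - (J + K))) := by rw [← pow_add, ← pow_add]
      _ ≤ 2 ^ E := B5
  have c2 : (((I.erase i0) ×ˢ (range J).powerset).biUnion Qs).card ≤ 2 ^ E := by
    refine (card_biUnion_le_card_mul _ _ _ cQ).trans ?_
    rw [card_product, card_powerset, card_range]
    calc (I.erase i0).card * 2 ^ J * 2 ^ (μ1 - J * h - 2 + (J * h - Jp - q))
        ≤ 2 ^ K * 2 ^ J * 2 ^ (μ1 - J * h - 2 + (J * h - Jp - q)) :=
          Nat.mul_le_mul_right _ (Nat.mul_le_mul_right _ ((card_le_card (erase_subset _ _)).trans hK))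
      _ = 2 ^ (K + J + (μ1 - J * h - 2 + (J * h - Jp - q))) := by rw [← pow_add, ← pow_add]
      _ ≤ 2 ^ E := B6
  have hcard := (card_le_card hcov).trans ((card_union_le _ _).trans
    (Nat.add_le_add_left ((card_union_le _ _).trans (Nat.add_le_add c1 c2)) _))
  refine ⟨S, δ, ?_, fun m hm => ?_⟩
  · rw [B13]
    clear * - hcard clow
    omega
  · obtain ⟨hm1, hokm, hfar⟩ := mem_filter.1 hm
    obtain ⟨hm2, hodd, hlo, hhi⟩ := mem_filter.1 hm1
    have hm3 := mem_Ico.1 hm2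
    have hlt : ∀ T ⊆ range J, m + ∑ i ∈ T, δ i < 2 ^ (μ1 + 2) := fun T hT => by
      have h1 := hσ T hT
      clear * - h1 hm3 hMbig hM2
      omega
    refine ⟨hlt, ?_⟩
    have hcube : ∀ i ∈ I, Cb J m δ (fun z => sg ((P i).eval (x + 2 ^ k * z)) *
        sg ((P i).eval (x + 2 ^ (k + 1) * z))) =
        Cb J m δ (psi (fun l => hs (P i) l x) (J * h) k) := by
      intro i hi
      obtain ⟨g1, g2, -⟩ := hfacts i hi
      simp only [hV i hi]
      refine cubeG (fun l => hs (P i) l x) n J h k v vp (G + (n + 2) + μ0 * (n + 1) + 3)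
        (hs (P i) 0 x / 2 ^ k) m δ hJ (fun i _ => ⟨_, rfl⟩) (by clear * - b7; omega) b8 rfl
        (g1.trans_le (Nat.pow_le_pow_right (by norm_num) (Nat.sub_le _ _)))
        (fun T hT => hokm i hi T (mem_powerset.2 hT)) ?_ (fun T hT => g2 _ (hlt T hT))
      intro T hT i' hi' l hl
      rcases Nat.eq_zero_or_pos l with rfl | hl1
      · unfold bb
        rw [pow_zero, pow_zero]
        exact Nat.le_add_right _ _
      · have h1 := hσ T hT
        have h2 := hδle i' hi'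
        have h3 := gap_upper (fun l => hs (P i) l x) (n + 2) G ((J - i') * h) x μ0 μ1
          (if i' = 0 then A' % 4 else 1)
          (m + ∑ i ∈ T, δ i) l hl1 (by clear * - hl; omega) (hAu i hi l (by clear * - hl; omega)) hx2
          (by
            change m + ∑ i ∈ T, δ i + δ i' < 2 ^ (μ1 + 2)
            clear * - h1 h2 hm3 hMbig hM2
            omega) (by clear * - hg4; split_ifs <;> omega) (by clear * - hμ0 hκ; omega)
        have e1 : G + (n + 2) + μ0 * (n + 2 - 1) + (J - i') * h + 3 =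
            G + (n + 2) + μ0 * (n + 1) + 3 + (J - i') * h := by
          have : n + 2 - 1 = n + 1 := by clear * -; omega
          rw [this]; ring
        rw [e1] at h3
        exact (Nat.le_add_right _ _).trans h3
    rw [Cb_prod, ← mul_prod_erase I _ hi0, hcube i0 hi0]
    have hothers : ∏ i ∈ I.erase i0, Cb J m δ (fun z => sg ((P i).eval (x + 2 ^ k * z)) *
        sg ((P i).eval (x + 2 ^ (k + 1) * z))) = 1 := by
      refine prod_eq_one fun i hi => ?_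
      have hiI := mem_of_mem_erase hi
      rw [hcube i hiI]
      refine psi_one (fun l => hs (P i) l x) J (J * h) k (hs (P i) 0 x / 2 ^ k) m δ rfl
        (fun T hT => ?_)
      have h1 := hfar (i, T) (mem_product.2 ⟨hi, mem_powerset.2 hT⟩)
      have h2 := (hfacts i hiI).1
      change hs (P i) 1 x * (m + ∑ i ∈ T, δ i) % 2 ^ (J * h) + hs (P i) 0 x / 2 ^ k < 2 ^ (J * h)
      change hs (P i) 1 x * (m + ∑ i ∈ T, δ i) % 2 ^ (J * h) + 2 ^ (J * h - Jp) ≤ 2 ^ (J * h) at h1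
      clear * - h1 h2
      omega
    rw [hothers, mul_one]
    refine psi_prod (fun l => hs (P i0) l x) J (J * h) k α A' (A' % 4) t m δ hJ ?_ b9 hA1 hg1
      rfl hlo hhi htw ?_
    · change 2 ^ ((J - 0) * h) * (if (0 : ℕ) = 0 then A' % 4 else 1) = _
      rw [Nat.sub_zero, if_pos rfl]
    · -- the first block at the other vertices
      intro T hT hi
      have hsplit : ∃ z, ∑ i ∈ T, δ i = 2 ^ (J * h) * z + ∑ i ∈ T.erase 0, 2 ^ ((J - i) * h) := by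
        have h1 : ∑ i ∈ T.erase 0, δ i = ∑ i ∈ T.erase 0, 2 ^ ((J - i) * h) := by
          refine sum_congr rfl fun i hi => ?_
          change 2 ^ ((J - i) * h) * (if i = 0 then A' % 4 else 1) = _
          rw [if_neg (ne_of_mem_erase hi), mul_one]
        by_cases h0 : 0 ∈ T
        · refine ⟨A' % 4, ?_⟩
          rw [← add_sum_erase T δ h0, h1]
          change 2 ^ ((J - 0) * h) * (if (0 : ℕ) = 0 then A' % 4 else 1) + _ = _
          rw [Nat.sub_zero, if_pos rfl]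
        · refine ⟨0, ?_⟩
          rw [mul_zero, zero_add, ← h1, erase_eq_of_notMem h0]
      obtain ⟨z, hz⟩ := hsplit
      obtain ⟨i, hiT, hi1⟩ := hi
      have h2 := hxD (T.erase 0) (fun i hi => by
        have h3 := mem_range.1 (hT (mem_of_mem_erase hi))
        have h4 := ne_of_mem_erase hi
        exact mem_Icc.2 ⟨by clear * - h4; omega, by clear * - h3; omega⟩)
        ⟨i, mem_erase.2 ⟨by clear * - hi1; omega, hiT⟩⟩
      have h5 : hs (P i0) 1 x * (∑ i ∈ T, δ i) % 2 ^ (J * h) =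
          hs (P i0) 1 x * (∑ i ∈ T.erase 0, 2 ^ ((J - i) * h)) % 2 ^ (J * h) := by
        rw [hz, mul_add, mul_left_comm, add_comm, Nat.add_mul_mod_self_left]
      rw [h5]
      clear * - h2 htJ
      omega

end Pool.Agent.Lib.MP_8fac0f_nt.OY
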