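import Pool.Agent.Lib.MP_8fac0f_nt.OW.Cnt2

/-!
# The ratio of two derivatives is seldom close to a fraction with a small denominator
-/

set_option autoImplicit false

namespace Pool.Agent.Lib.MP_8fac0f_nt.OY

open Finset Polynomial N OV OW

/-- The derivative, with integer coefficients. -/
noncomputable def QI (P : ℕ[X]) : ℤ[X] := (hasseDeriv 1 P).map (Nat.castRingHom ℤ)

theorem QI_eval (P : ℕ[X]) (x : ℕ) : (QI P).eval (x : ℤ) = (hs P 1 x : ℤ) := by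
  unfold QI hs
  rw [eval_natCast_map]
  rfl

/-- The numerator of the derivative of the ratio. -/
noncomputable def NI (P R : ℕ[X]) : ℤ[X] :=
  derivative (QI R) * QI P - QI R * derivative (QI P)

theorem ratio_sep (P R : ℕ[X]) (G Q w x1 x2 g : ℕ) (β : ℤ) (hN : ¬ (2 ^ G : ℤ) ∣ (NI P R).eval 1)
    (hx1 : (2 ^ G : ℤ) ∣ (x1 : ℤ) - 1) (hx2 : (2 ^ G : ℤ) ∣ (x2 : ℤ) - 1) (hg0 : 0 < g)
    (hg : g < 2 ^ Q) (h1 : (2 ^ w : ℤ) ∣ (hs R 1 x1 : ℤ) * g - (hs P 1 x1 : ℤ) * β)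
    (h2 : (2 ^ w : ℤ) ∣ (hs R 1 x2 : ℤ) * g - (hs P 1 x2 : ℤ) * β) :
    (2 ^ (w - G - Q) : ℤ) ∣ (x1 : ℤ) - x2 := by
  set a1 : ℤ := (hs P 1 x1 : ℤ) with ha1
  set a2 : ℤ := (hs P 1 x2 : ℤ) with ha2
  set b1 : ℤ := (hs R 1 x1 : ℤ) with hb1
  set b2 : ℤ := (hs R 1 x2 : ℤ) with hb2
  set F : ℤ[X] := QI R * C a2 - C b2 * QI P with hF
  obtain ⟨y, hy⟩ : ∃ y : ℤ, y = (x1 : ℤ) - x2 := ⟨_, rfl⟩
  obtain ⟨k, hk⟩ := F.binomExpansion (x2 : ℤ) y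
  have e1 : F.eval (x1 : ℤ) = b1 * a2 - b2 * a1 := by
    rw [hF, eval_sub, eval_mul, eval_mul, eval_C, eval_C, QI_eval, QI_eval]
  have e2 : F.eval (x2 : ℤ) = 0 := by
    rw [hF, eval_sub, eval_mul, eval_mul, eval_C, eval_C, QI_eval, QI_eval]
    ring
  have e3 : (derivative F).eval (x2 : ℤ) = (NI P R).eval (x2 : ℤ) := by
    rw [hF, NI, derivative_sub, derivative_mul, derivative_mul, derivative_C, derivative_C]
    simp only [eval_sub, eval_mul, eval_add, eval_C, eval_zero, QI_eval]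
    ring
  have e4 : (x2 : ℤ) + y = x1 := by rw [hy]; ring
  rw [e4, e2, e3, e1] at hk
  set W : ℤ := (NI P R).eval (x2 : ℤ) + k * y with hW
  have hyG : (2 ^ G : ℤ) ∣ y := by
    have : y = ((x1 : ℤ) - 1) - ((x2 : ℤ) - 1) := by rw [hy]; ring
    rw [this]
    exact dvd_sub hx1 hx2
  have hWG : ¬ (2 ^ G : ℤ) ∣ W := by
    intro h
    apply hN
    have h3 : (2 ^ G : ℤ) ∣ (NI P R).eval (x2 : ℤ) - (NI P R).eval 1 :=
      hx2.trans (sub_dvd_eval_sub (x2 : ℤ) 1 (NI P R))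
    have h4 : (NI P R).eval 1 = W - k * y - ((NI P R).eval (x2 : ℤ) - (NI P R).eval 1) := by
      rw [hW]; ring
    rw [h4]
    exact dvd_sub (dvd_sub h (hyG.mul_left k)) h3
  have h5 : (2 ^ w : ℤ) ∣ (y * g) * W := by
    have h6 : (y * g) * W = a2 * (b1 * g - a1 * β) - a1 * (b2 * g - a2 * β) := by
      have h7 : y * W = b1 * a2 - b2 * a1 := by rw [hW]; linear_combination -hk
      linear_combination (g : ℤ) * h7
    rw [h6]
    exact dvd_sub (h1.mul_left _) (h2.mul_left _)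
  have h8 : 2 ^ w ∣ (y.natAbs * g) * W.natAbs := by
    have := Int.natAbs_dvd_natAbs.2 h5
    rwa [Int.natAbs_mul, Int.natAbs_mul, Int.natAbs_natCast, Int.natAbs_pow] at this
  have h9 : ¬ 2 ^ (G + 1) ∣ W.natAbs := fun h => hWG (by
    have h10 : 2 ^ G ∣ W.natAbs := (pow_dvd_pow 2 (Nat.le_succ G)).trans h
    have h11 := Int.natCast_dvd.2 h10
    simpa using h11)
  have h12 := dvd_of_mul w G (y.natAbs * g) W.natAbs h9 h8
  have h13 : ¬ 2 ^ (Q + 1) ∣ g := fun h => by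
    have h14 := Nat.le_of_dvd hg0 h
    have h15 : 2 ^ Q ≤ 2 ^ (Q + 1) := Nat.pow_le_pow_right (by norm_num) (by omega)
    omega
  have h16 := dvd_of_mul (w - G) Q y.natAbs g h13 h12
  rw [← hy]
  have h17 := Int.natCast_dvd.2 h16
  simpa using h17

open Classical in
theorem ratio_count (P R : ℕ[X]) (G Q w u Jp : ℕ) (hN : ¬ (2 ^ G : ℤ) ∣ (NI P R).eval 1)
    (hwu : w ≤ u) (hw : Q + 2 * G + 1 ≤ w) (hJw : Jp ≤ w) :
    ((range (2 ^ (u - G - 1))).filter fun y => ∃ g : ℕ, 0 < g ∧ g < 2 ^ Q ∧ ∃ β : ℤ,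
      |β| < 2 ^ (w - Jp) ∧ (2 ^ w : ℤ) ∣ (hs R 1 (2 ^ u + 2 ^ (G + 1) * y + 1) : ℤ) * g -
        (hs P 1 (2 ^ u + 2 ^ (G + 1) * y + 1) : ℤ) * β).card ≤
      2 ^ (Q + (w - Jp + 1) + (u - G - 1 - (w - Q - 2 * G - 1))) := by
  set X : ℕ → ℕ := fun y => 2 ^ u + 2 ^ (G + 1) * y + 1 with hX
  set e := w - Q - 2 * G - 1 with he
  have hone : ∀ g : ℕ, 0 < g → g < 2 ^ Q → ∀ β : ℤ, ((range (2 ^ (u - G - 1))).filter fun y =>
      (2 ^ w : ℤ) ∣ (hs R 1 (X y) : ℤ) * g - (hs P 1 (X y) : ℤ) * β).card ≤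
        2 ^ (u - G - 1 - e) := by
    intro g hg0 hg β
    have hxG : ∀ y, (2 ^ G : ℤ) ∣ ((X y : ℕ) : ℤ) - 1 := fun y => by
      have h1 : 2 ^ u = 2 ^ G * 2 ^ (u - G) := by rw [← pow_add]; congr 1; omega
      have h2 : ((X y : ℕ) : ℤ) - 1 = 2 ^ G * (2 ^ (u - G) + 2 * y) := by
        have h3 : X y = 2 ^ G * 2 ^ (u - G) + 2 ^ (G + 1) * y + 1 := by rw [hX, ← h1]
        rw [h3]
        push_cast
        ring
      rw [h2]
      exact Dvd.intro _ rfl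
    have h0 : 2 ^ (u - G - 1) = 2 ^ (u - G - 1 - e) * 2 ^ e := by
      rw [← pow_add]; congr 1; omega
    rw [← card_range (2 ^ (u - G - 1 - e))]
    refine card_le_card_of_injOn (fun y => y / 2 ^ e) (fun y hy => ?_) (fun y1 hy1 y2 hy2 h => ?_)
    · have h1 := mem_range.1 (mem_filter.1 (mem_coe.1 hy)).1
      refine mem_coe.2 (mem_range.2 (Nat.div_lt_of_lt_mul ?_))
      rw [mul_comm, ← h0]
      exact h1
    · have h1 := (mem_filter.1 (mem_coe.1 hy1)).2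
      have h2 := (mem_filter.1 (mem_coe.1 hy2)).2
      have h3 := ratio_sep P R G Q w (X y1) (X y2) g β hN (hxG y1) (hxG y2) hg0 hg h1 h2
      have h4 : ((X y1 : ℕ) : ℤ) - (X y2 : ℕ) = 2 ^ (G + 1) * ((y1 : ℤ) - y2) := by
        rw [hX]
        push_cast
        ring
      have h5 : (2 ^ (w - G - Q) : ℤ) = 2 ^ (G + 1) * 2 ^ e := by
        rw [← pow_add]; congr 1; omega
      rw [h4, h5] at h3
      have h6 : (2 ^ e : ℤ) ∣ (y1 : ℤ) - y2 :=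
        (mul_dvd_mul_iff_left (by positivity : (2 ^ (G + 1) : ℤ) ≠ 0)).1 h3
      have h7 : y1 ≡ y2 [MOD 2 ^ e] := by
        refine (Nat.modEq_iff_dvd.2 ?_).symm
        push_cast
        exact h6
      have h8 : y1 % 2 ^ e = y2 % 2 ^ e := h7
      have h9 : y1 / 2 ^ e = y2 / 2 ^ e := h
      rw [← Nat.div_add_mod y1 (2 ^ e), ← Nat.div_add_mod y2 (2 ^ e), h8, h9]
  set S : ℕ × ℤ → Finset ℕ := fun p => (range (2 ^ (u - G - 1))).filter fun y =>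
      (2 ^ w : ℤ) ∣ (hs R 1 (X y) : ℤ) * p.1 - (hs P 1 (X y) : ℤ) * p.2 with hS
  have hsub : ((range (2 ^ (u - G - 1))).filter fun y => ∃ g : ℕ, 0 < g ∧ g < 2 ^ Q ∧ ∃ β : ℤ,
      |β| < 2 ^ (w - Jp) ∧ (2 ^ w : ℤ) ∣ (hs R 1 (X y) : ℤ) * g - (hs P 1 (X y) : ℤ) * β) ⊆
      (Ioo 0 (2 ^ Q) ×ˢ Ioo (-(2 ^ (w - Jp) : ℤ)) (2 ^ (w - Jp))).biUnion S := by
    intro y hy
    obtain ⟨hy1, g, hg0, hg, β, hβ, hd⟩ := mem_filter.1 hy
    exact mem_biUnion.2 ⟨(g, β), mem_product.2 ⟨mem_Ioo.2 ⟨hg0, hg⟩, mem_Ioo.2 (abs_lt.1 hβ)⟩,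
      mem_filter.2 ⟨hy1, hd⟩⟩
  refine (card_le_card hsub).trans ((card_biUnion_le_card_mul _ _ (2 ^ (u - G - 1 - e))
    (fun p hp => ?_)).trans ?_)
  · obtain ⟨h1, -⟩ := mem_product.1 hp
    have h2 := mem_Ioo.1 h1
    exact hone p.1 h2.1 h2.2 p.2
  · rw [pow_add _ (Q + (w - Jp + 1))]
    refine Nat.mul_le_mul_right _ ?_
    rw [card_product, Nat.card_Ioo, Int.card_Ioo, pow_add, pow_succ 2 (w - Jp)]
    refine Nat.mul_le_mul ((Nat.sub_le _ _).trans (Nat.sub_le _ _)) ?_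
    have h1 : ((2 : ℤ) ^ (w - Jp) - -(2 ^ (w - Jp)) - 1).toNat ≤
        ((2 ^ (w - Jp) * 2 : ℕ) : ℤ).toNat := by
      refine Int.toNat_le_toNat ?_
      push_cast
      linarith
    exact h1.trans (le_of_eq (Int.toNat_natCast _))

end Pool.Agent.Lib.MP_8fac0f_nt.OY
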