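import Pool.Agent.Lib.MP_8fac0f_nt.OY.Ratio

/-!
# The shifts of a polynomial, and a residue class without degenerate ratios
-/

set_option autoImplicit false

namespace Pool.Agent.Lib.MP_8fac0f_nt.OY

open Finset Polynomial N OV OW

/-- The polynomial `P (x + i)`. -/
noncomputable def sh (P : ℕ[X]) (i : ℕ) : ℕ[X] := P.comp (X + C i)

theorem sh_eval (P : ℕ[X]) (i x : ℕ) : (sh P i).eval x = P.eval (x + i) := by
  unfold sh
  rw [eval_comp, eval_add, eval_X, eval_C]

theorem sh_natDegree (P : ℕ[X]) (i : ℕ) : (sh P i).natDegree = P.natDegree := by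
  unfold sh
  rw [natDegree_comp, natDegree_X_add_C, mul_one]

theorem der_comp (D : ℤ[X]) (a : ℤ) :
    derivative (D.comp (X + C a)) = (derivative D).comp (X + C a) := by
  rw [derivative_comp, derivative_add, derivative_X, derivative_C, add_zero, one_mul]

theorem comp_ne (D : ℤ[X]) (hD : 1 ≤ D.natDegree) (a b : ℤ) (hab : a ≠ b) :
    D.comp (X + C b) ≠ D.comp (X + C a) := by
  intro h
  have h1 : ∀ x : ℤ, D.eval (x + b) = D.eval (x + a) := fun x => by
    have := congrArg (fun p => p.eval x) h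
    simpa using this
  have h2 : ∀ t : ℕ, D.eval ((t : ℤ) * (b - a)) = D.eval 0 := by
    intro t
    induction t with
    | zero => simp
    | succ t ih =>
      rw [← ih]
      have h3 := h1 ((t : ℤ) * (b - a) - a)
      have e1 : (t : ℤ) * (b - a) - a + b = ((t + 1 : ℕ) : ℤ) * (b - a) := by push_cast; ring
      have e2 : (t : ℤ) * (b - a) - a + a = (t : ℤ) * (b - a) := by ring
      rwa [e1, e2] at h3
  have h3 : D - C (D.eval 0) = 0 := by
    refine eq_zero_of_infinite_isRoot _ (Set.infinite_of_injective_forall_mem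
      (f := fun t : ℕ => (t : ℤ) * (b - a)) (fun s t hst => ?_) (fun t => ?_))
    · have h4 : (s : ℤ) * (b - a) = (t : ℤ) * (b - a) := hst
      have h5 := mul_right_cancel₀ (sub_ne_zero.2 hab.symm) h4
      exact_mod_cast h5
    · change (D - C (D.eval 0)).eval _ = 0
      rw [eval_sub, eval_C, h2 t, sub_self]
  have h4 : D = C (D.eval 0) := sub_eq_zero.1 h3
  rw [h4, natDegree_C] at hD
  omega

theorem E_ne (D : ℤ[X]) (hD : 1 ≤ D.natDegree) (a b : ℤ) (hab : a ≠ b) :
    (derivative D).comp (X + C b) * D.comp (X + C a) -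
      D.comp (X + C b) * (derivative D).comp (X + C a) ≠ 0 := by
  intro h
  rw [← der_comp, ← der_comp] at h
  have hne := comp_ne D hD a b hab
  have hdeg : ∀ c : ℤ, (D.comp (X + C c)).natDegree = D.natDegree := fun c => by
    rw [natDegree_comp, natDegree_X_add_C, mul_one]
  have hlc : ∀ c : ℤ, (D.comp (X + C c)).leadingCoeff = D.leadingCoeff := fun c => by
    rw [leadingCoeff_comp (by rw [natDegree_X_add_C]; norm_num), leadingCoeff_X_add_C, one_pow,
      mul_one]
  set A := D.comp (X + C a) with hA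
  set B := D.comp (X + C b) with hB
  have hA0 : A ≠ 0 := fun h0 => by
    have := hdeg a
    rw [← hA, h0, natDegree_zero] at this
    omega
  have hB0 : B ≠ 0 := fun h0 => by
    have := hdeg b
    rw [← hB, h0, natDegree_zero] at this
    omega
  obtain ⟨U, hU⟩ : ∃ U, U = B - A := ⟨_, rfl⟩
  have hU0 : U ≠ 0 := by rw [hU]; exact sub_ne_zero.2 hne
  have hUA : derivative U * A = U * derivative A := by
    rw [hU, derivative_sub]
    linear_combination h
  have hlt : U.natDegree < A.natDegree := by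
    have h1 : B.degree = A.degree := by
      rw [degree_eq_natDegree hB0, degree_eq_natDegree hA0, hdeg a, hdeg b]
    have h2 := degree_sub_lt_left h1 hB0 ((hlc b).trans (hlc a).symm)
    rw [← hU, h1] at h2
    exact natDegree_lt_natDegree hU0 h2
  have hAdeg : A.natDegree = D.natDegree := hdeg a
  obtain ⟨m, hm⟩ : ∃ m, A.natDegree = m + 1 := ⟨A.natDegree - 1, by omega⟩
  rcases Nat.eq_zero_or_pos U.natDegree with hc | hc
  · have h1 : derivative U = 0 := derivative_of_natDegree_zero hc
    rw [h1, zero_mul] at hUA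
    have h2 : derivative A = 0 := (mul_eq_zero.1 hUA.symm).resolve_left hU0
    have h3 := derivative_eq_zero.1 h2
    omega
  · obtain ⟨c, hc'⟩ : ∃ c, U.natDegree = c + 1 := ⟨U.natDegree - 1, by omega⟩
    have h1 := congrArg (fun p => p.coeff (c + (m + 1))) hUA
    have h2 : (derivative U * A).coeff (c + (m + 1)) = (derivative U).coeff c * A.coeff (m + 1) :=
      coeff_mul_add_eq_of_natDegree_le (by have := natDegree_derivative_le U; omega) hm.le
    have h3 : (U * derivative A).coeff (c + (m + 1)) = U.coeff (c + 1) * (derivative A).coeff m := by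
      rw [show c + (m + 1) = (c + 1) + m by ring]
      exact coeff_mul_add_eq_of_natDegree_le hc'.le (by have := natDegree_derivative_le A; omega)
    have h4 : (derivative U * A).coeff (c + (m + 1)) = (U * derivative A).coeff (c + (m + 1)) := h1
    rw [h2, h3, coeff_derivative, coeff_derivative] at h4
    have h5 : U.coeff (c + 1) ≠ 0 := by
      rw [← hc']; exact leadingCoeff_ne_zero.2 hU0
    have h6 : A.coeff (m + 1) ≠ 0 := by
      rw [← hm]; exact leadingCoeff_ne_zero.2 hA0
    have h7 : (U.coeff (c + 1) * A.coeff (m + 1)) * (((c : ℤ) + 1) - ((m : ℤ) + 1)) = 0 := by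
      linear_combination h4
    rcases mul_eq_zero.1 h7 with h8 | h8
    · exact (mul_ne_zero h5 h6) h8
    · omega

/-- The derivative of `P` with integer coefficients. -/
noncomputable def DI (P : ℕ[X]) : ℤ[X] := (derivative P).map (Nat.castRingHom ℤ)

theorem QI_sh (P : ℕ[X]) (i : ℕ) : QI (sh P i) = (DI P).comp (X + C (i : ℤ)) := by
  unfold QI sh DI
  rw [hasseDeriv_one, derivative_comp, derivative_add, derivative_X, derivative_C, add_zero,
    one_mul, Polynomial.map_comp, Polynomial.map_add, map_X, map_C]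
  rfl

theorem DI_natDegree (P : ℕ[X]) (hd : 2 ≤ P.natDegree) : 1 ≤ (DI P).natDegree := by
  unfold DI
  rw [natDegree_map_eq_of_injective Nat.cast_injective, natDegree_derivative]
  omega

theorem exists_shift (P : ℕ[X]) (hd : 2 ≤ P.natDegree) (a : ℕ) (I : Finset ℕ) :
    ∃ s : ℕ, ∀ b ∈ I, b ≠ a → (NI (sh P (a + s)) (sh P (b + s))).eval 1 ≠ 0 := by
  classical
  set D := DI P with hD
  set E : ℕ → ℤ[X] := fun b => (derivative D).comp (X + C (b : ℤ)) * D.comp (X + C (a : ℤ)) -
      D.comp (X + C (b : ℤ)) * (derivative D).comp (X + C (a : ℤ)) with hE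
  have hev : ∀ b s : ℕ, (NI (sh P (a + s)) (sh P (b + s))).eval 1 = (E b).eval (1 + (s : ℤ)) := by
    intro b s
    unfold NI
    rw [QI_sh, QI_sh, der_comp, der_comp]
    simp only [hE, eval_sub, eval_mul, eval_comp, eval_add, eval_X, eval_C]
    push_cast
    have e1 : ∀ z : ℤ, 1 + (z + (s : ℤ)) = 1 + (s : ℤ) + z := fun z => by ring
    rw [e1, e1]
  set Ψ : ℤ[X] := ∏ b ∈ I.erase a, E b with hΨ
  have hΨ0 : Ψ ≠ 0 := prod_ne_zero_iff.2 fun b hb =>
    E_ne D (DI_natDegree P hd) a b (by exact_mod_cast (ne_of_mem_erase hb).symm)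
  obtain ⟨s, hs⟩ : ∃ s : ℕ, Ψ.eval (1 + (s : ℤ)) ≠ 0 := by
    by_contra hcon
    push Not at hcon
    refine hΨ0 (eq_zero_of_infinite_isRoot _ (Set.infinite_of_injective_forall_mem
      (f := fun s : ℕ => 1 + (s : ℤ)) (fun x y hxy => ?_) hcon))
    have h1 : 1 + (x : ℤ) = 1 + (y : ℤ) := hxy
    omega
  refine ⟨s, fun b hb hba => ?_⟩
  rw [hev]
  rw [hΨ, eval_prod] at hs
  exact prod_ne_zero_iff.1 hs b (mem_erase.2 ⟨hba, hb⟩)

end Pool.Agent.Lib.MP_8fac0f_nt.OY
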