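import Pool.Agent.Lib.MP_8fac0f_nt.OY.PerG
import Pool.Agent.Lib.MP_8fac0f_nt.OY.Shift

/-!
# The number of the arguments with a prescribed product of signs
-/

set_option autoImplicit false

namespace Pool.Agent.Lib.MP_8fac0f_nt.OY

open Finset Polynomial N OV OW

theorem ar3 (n J w h v κ vp κ1 μ1 μ0 u G Jp K q : ℕ)
    (hJp : Jp = 4 * G + 2 * q + J + K + 8)
    (hκ1 : κ1 = vp + 2 * (n + 2) + 4) (hμ1 : μ1 = w + h + κ1) (hμ0 : μ0 = μ1 + κ)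
    (hu : μ0 = u + 1) (hκ : κ = v + 4) (hv : 4 * G + Jp + 3 * (n + 2) ≤ v)
    (hh : v + vp + 2 * G + Jp + 2 * (n + 2) + J + 10 + q ≤ h) (hw : h ≤ w) :
    G + 2 ≤ u ∧ w ≤ u ∧ (G + q) + 2 * G + 1 ≤ w ∧ Jp + 1 ≤ w ∧ Jp + G + 1 ≤ h ∧
      J + (u + 2 + G - Jp) ≤ u - G - 3 ∧
      K + ((G + q) + (w - Jp + 1) + (u - G - 1 - (w - (G + q) - 2 * G - 1))) ≤ u - G - 3 ∧
      2 * w + 2 * h ≤ (u - G - 2) + (μ1 - (3 * G + Jp + (n + 2) + 4)) ∧ G + 3 ≤ u := by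
  obtain ⟨a, ha⟩ : ∃ a, u = G + 3 + a := ⟨u - G - 3, by omega⟩
  obtain ⟨b, hb⟩ : ∃ b, w = Jp + b := ⟨w - Jp, by omega⟩
  obtain ⟨c, hc⟩ : ∃ c, w = (G + q) + 2 * G + 1 + c := ⟨w - ((G + q) + 2 * G + 1), by omega⟩
  obtain ⟨d, hd⟩ : ∃ d, u = G + 1 + c + d := ⟨u - (G + 1 + c), by omega⟩
  obtain ⟨e, he⟩ : ∃ e, u + 2 + G = Jp + e := ⟨u + 2 + G - Jp, by omega⟩
  obtain ⟨f, hf⟩ : ∃ f, μ1 = (3 * G + Jp + (n + 2) + 4) + f :=
    ⟨μ1 - (3 * G + Jp + (n + 2) + 4), by omega⟩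
  have e1 : u - G - 3 = a := by clear * - ha; omega
  have e2 : w - Jp = b := by clear * - hb; omega
  have e3 : w - (G + q) - 2 * G - 1 = c := by clear * - hc; omega
  have e4 : u - G - 1 - c = d := by clear * - hd; omega
  have e5 : u + 2 + G - Jp = e := by clear * - he; omega
  have e6 : μ1 - (3 * G + Jp + (n + 2) + 4) = f := by clear * - hf; omega
  have e7 : u - G - 2 = a + 1 := by clear * - ha; omega
  rw [e1, e2, e3, e4, e5, e6, e7]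
  clear e1 e2 e3 e4 e5 e6 e7
  refine ⟨by omega, by omega, by omega, by omega, by omega, by omega, by omega, by omega,
    by omega⟩

theorem exists_G (P : ℕ → ℕ[X]) (I : Finset ℕ) (i0 : ℕ)
    (hN0 : ∀ i ∈ I, i ≠ i0 → (NI (P i0) (P i)).eval 1 ≠ 0) :
    ∃ G : ℕ, (∀ i ∈ I, (P i).eval 2 < 2 ^ G) ∧
      ∀ i ∈ I, i ≠ i0 → ¬ (2 ^ G : ℤ) ∣ (NI (P i0) (P i)).eval 1 := by
  set f : ℕ → ℕ := fun i => (P i).eval 2 + ((NI (P i0) (P i)).eval 1).natAbs with hf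
  refine ⟨∑ i ∈ I, f i, fun i hi => ?_, fun i hi hne hd => ?_⟩
  · have h1 : f i ≤ ∑ i ∈ I, f i := single_le_sum (fun _ _ => Nat.zero_le _) hi
    have h2 : ∑ i ∈ I, f i < 2 ^ (∑ i ∈ I, f i) := Nat.lt_two_pow_self
    exact lt_of_le_of_lt ((Nat.le_add_right _ _).trans h1) h2
  · have h1 : f i ≤ ∑ i ∈ I, f i := single_le_sum (fun _ _ => Nat.zero_le _) hi
    have h2 : ∑ i ∈ I, f i < 2 ^ (∑ i ∈ I, f i) := Nat.lt_two_pow_self
    have h3 := Int.natAbs_dvd_natAbs.2 hd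
    rw [Int.natAbs_pow] at h3
    have h4 := Nat.le_of_dvd (Int.natAbs_pos.2 (hN0 i hi hne)) h3
    have h5 : ((NI (P i0) (P i)).eval 1).natAbs ≤ f i := Nat.le_add_left _ _
    have h6 : (2 : ℤ).natAbs = 2 := rfl
    rw [h6] at h4
    omega

theorem prod_sg (I : Finset ℕ) (g : ℕ → ℕ) :
    ∏ i ∈ I, sg (g i) = 1 ∨ ∏ i ∈ I, sg (g i) = -1 := by
  classical
  induction I using Finset.induction_on with
  | empty => left; simp
  | insert a s ha ih =>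
    rw [prod_insert ha]
    rcases sg_cases (g a) with h | h <;> rcases ih with h' | h' <;> rw [h, h'] <;> norm_num

theorem twinI (P : ℕ → ℕ[X]) (I : Finset ℕ) (i0 : ℕ) (hi0 : i0 ∈ I) (n J : ℕ)
    (hd : ∀ i ∈ I, (P i).natDegree = n + 2) (hJ : 1 ≤ J)
    (hN0 : ∀ i ∈ I, i ≠ i0 → (NI (P i0) (P i)).eval 1 ≠ 0) :
    ∃ lam h0 : ℕ, ∀ h : ℕ, h0 ≤ h → ∀ N : ℕ, 2 ^ (lam + ((n + 2) * (J + 1) + 1) * h) ≤ N →
      ∀ ε : ℝ, (ε = 1 ∨ ε = -1) →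
        2 ^ (2 * (J + 1) * h) ≤ 2 ^ (J + 1) *
          ((range N).filter fun m => ∏ i ∈ I, sg ((P i).eval m) = ε).card := by
  classical
  obtain ⟨G, hG, hNG⟩ := exists_G P I i0 hN0
  obtain ⟨K, hK⟩ : ∃ K, I.card ≤ 2 ^ K := ⟨I.card, Nat.lt_two_pow_self.le⟩
  obtain ⟨q, hq⟩ : ∃ q, q = K + J + 3 * G + (n + 2) + 4 := ⟨_, rfl⟩
  obtain ⟨Jp, hJp⟩ : ∃ Jp, Jp = 4 * G + 2 * q + J + K + 8 := ⟨_, rfl⟩
  obtain ⟨v, hv⟩ : ∃ v, v = 4 * G + Jp + 3 * (n + 2) + 2 * J + 9 + K := ⟨_, rfl⟩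
  obtain ⟨κ, hκ⟩ : ∃ κ, κ = v + 4 := ⟨_, rfl⟩
  obtain ⟨vp, hvp⟩ : ∃ vp, vp = (n + 2) * κ + 4 * G + 2 * Jp + 2 * (n + 2) + 2 * J + 10 + K :=
    ⟨_, rfl⟩
  obtain ⟨κ1, hκ1⟩ : ∃ κ1, κ1 = vp + 2 * (n + 2) + 4 := ⟨_, rfl⟩
  refine ⟨κ1 + G + Jp + 3 + (n + 2) * (κ1 + κ),
    v + vp + 2 * G + Jp + 2 * (n + 2) + J + 10 + q, fun h hh N hN ε hε => ?_⟩
  have hJh : h ≤ J * h := Nat.le_mul_of_pos_left h hJ
  obtain ⟨μ1, hμ1'⟩ : ∃ μ1, μ1 = J * h + h + κ1 := ⟨_, rfl⟩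
  have hμ1 : μ1 = J * h + h + (vp + 2 * (n + 2) + 4) := by rw [hμ1', hκ1]
  obtain ⟨μ0, hμ0⟩ : ∃ μ0, μ0 = μ1 + κ := ⟨_, rfl⟩
  obtain ⟨u, hu⟩ : ∃ u, μ0 = u + 1 := ⟨μ0 - 1, by clear * - hμ0 hκ; omega⟩
  obtain ⟨s1, s2, s3, s4, s5, s6, s7, s8, s9⟩ := ar3 n J (J * h) h v κ vp κ1 μ1 μ0 u G Jp K q hJp
    hκ1 hμ1' hμ0 hu hκ (by clear * - hv; omega) hh hJh
  have hn1 : 2 * μ0 ≤ (n + 2) * μ0 := Nat.mul_le_mul_right _ (by omega)
  obtain ⟨k, hk⟩ : ∃ k, k + J * h = (G + Jp) + (n + 2) * μ0 :=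
    ⟨(G + Jp) + (n + 2) * μ0 - J * h, by clear * - hn1 hu s2; omega⟩
  have hμk : μ0 ≤ k := by clear * - hn1 hu s2 hk; omega
  have hN' : 2 ^ (μ1 + k + 3) ≤ N := by
    refine le_trans (le_of_eq ?_) hN
    congr 1
    have e1 : μ1 + k + 3 + J * h = μ1 + 3 + ((G + Jp) + (n + 2) * μ0) := by
      clear * - hk; omega
    have e2 : μ1 + 3 + ((G + Jp) + (n + 2) * μ0) = κ1 + G + Jp + 3 + (n + 2) * (κ1 + κ) +
        ((n + 2) * (J + 1) + 1) * h + J * h := by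
      rw [hμ0, hμ1']; ring
    clear * - e1 e2
    omega
  -- the arguments x
  set x : ℕ → ℕ := fun y => 2 ^ u + 2 ^ (G + 1) * y + 1 with hx
  have hGu : 2 ^ u = 2 ^ (G + 1) * 2 ^ (u - G - 1) := by
    rw [← pow_add]; congr 1; clear * - s1; omega
  have hxlt : ∀ y ∈ range (2 ^ (u - G - 1)), x y < 2 ^ μ0 := fun y hy => by
    have p1 : 2 ^ 1 ≤ 2 ^ (G + 1) := Nat.pow_le_pow_right (by norm_num) (by clear * -; omega)
    have h1 := mem_range.1 hy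
    have h2 : 2 ^ (G + 1) * y + 2 ^ (G + 1) ≤ 2 ^ u := by
      rw [hGu]
      calc 2 ^ (G + 1) * y + 2 ^ (G + 1) = 2 ^ (G + 1) * (y + 1) := by ring
        _ ≤ _ := Nat.mul_le_mul_left _ h1
    have h3 : 2 ^ μ0 = 2 * 2 ^ u := by rw [hu]; ring
    change 2 ^ u + 2 ^ (G + 1) * y + 1 < 2 ^ μ0
    clear * - p1 h2 h3
    omega
  set 𝒯 := (Icc 1 (J - 1)).powerset.erase ∅ with h𝒯
  have c𝒯 : 𝒯.card ≤ 2 ^ J := by
    refine (card_le_card (erase_subset _ _)).trans ?_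
    rw [card_powerset, Nat.card_Icc]
    exact Nat.pow_le_pow_right (by norm_num) (by clear * -; omega)
  set Bd : Finset ℕ → Finset ℕ := fun T => (range (2 ^ (u - G - 1))).filter fun y =>
      (hs (P i0) 1 (x y) * (∑ i ∈ T, 2 ^ ((J - i) * h)) + 2 ^ (J * h - Jp)) % 2 ^ (J * h) <
        2 ^ (J * h - Jp + 1) with hBd
  have cBd : ∀ T ∈ 𝒯, (Bd T).card ≤ 2 ^ (u + 2 + G - Jp) := fun T hT => by
    have hT1 := mem_powerset.1 (mem_of_mem_erase hT)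
    have hT2 := nonempty_iff_ne_empty.2 (ne_of_mem_erase hT)
    obtain ⟨e, c, hσ, hc, he⟩ := sigma_form J h (by clear * - s5; omega) T hT1 hT2
    exact x_count (P i0) (n + 2) G (J * h) u Jp _ e c (hd i0 hi0) (by clear * -; omega) (hG i0 hi0)
      hσ hc (by clear * - he s5; omega) s2
  set BdR : ℕ → Finset ℕ := fun i => (range (2 ^ (u - G - 1))).filter fun y =>
      ∃ g : ℕ, 0 < g ∧ g < 2 ^ (G + q) ∧ ∃ β : ℤ, |β| < 2 ^ (J * h - Jp) ∧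
        (2 ^ (J * h) : ℤ) ∣ (hs (P i) 1 (2 ^ u + 2 ^ (G + 1) * y + 1) : ℤ) * g -
          (hs (P i0) 1 (2 ^ u + 2 ^ (G + 1) * y + 1) : ℤ) * β with hBdR
  have cBdR : ∀ i ∈ I.erase i0, (BdR i).card ≤ 2 ^ ((G + q) + (J * h - Jp + 1) +
      (u - G - 1 - (J * h - (G + q) - 2 * G - 1))) := fun i hi => by
    have h1 := ratio_count (P i0) (P i) G (G + q) (J * h) u Jp
      (hNG i (mem_of_mem_erase hi) (ne_of_mem_erase hi)) s2 s3 (by clear * - s4; omega)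
    convert h1
  set Y := (range (2 ^ (u - G - 1))).filter fun y => (∀ T ∈ 𝒯, y ∉ Bd T) ∧
    ∀ i ∈ I.erase i0, y ∉ BdR i with hY
  have cY : 2 ^ (u - G - 2) ≤ Y.card := by
    have hsub : range (2 ^ (u - G - 1)) ⊆ Y ∪ (𝒯.biUnion Bd ∪ (I.erase i0).biUnion BdR) := by
      intro y hy
      by_cases hyT : ∀ T ∈ 𝒯, y ∉ Bd T
      · by_cases hyR : ∀ i ∈ I.erase i0, y ∉ BdR i
        · exact mem_union_left _ (mem_filter.2 ⟨hy, hyT, hyR⟩)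
        · push Not at hyR
          obtain ⟨i, hi, h1⟩ := hyR
          exact mem_union_right _ (mem_union_right _ (mem_biUnion.2 ⟨i, hi, h1⟩))
      · push Not at hyT
        obtain ⟨T, hT, h1⟩ := hyT
        exact mem_union_right _ (mem_union_left _ (mem_biUnion.2 ⟨T, hT, h1⟩))
    have h2 : (𝒯.biUnion Bd).card ≤ 2 ^ (u - G - 3) := by
      refine (card_biUnion_le_card_mul _ _ _ cBd).trans ((Nat.mul_le_mul_right _ c𝒯).trans ?_)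
      rw [← pow_add]
      exact Nat.pow_le_pow_right (by norm_num) s6
    have h3 : ((I.erase i0).biUnion BdR).card ≤ 2 ^ (u - G - 3) := by
      refine (card_biUnion_le_card_mul _ _ _ cBdR).trans ((Nat.mul_le_mul_right _
        ((card_le_card (erase_subset _ _)).trans hK)).trans ?_)
      rw [← pow_add]
      exact Nat.pow_le_pow_right (by norm_num) s7
    have h1 := (card_le_card hsub).trans ((card_union_le _ _).trans
      (Nat.add_le_add_left ((card_union_le _ _).trans (Nat.add_le_add h2 h3)) _))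
    rw [card_range] at h1
    have h4 : 2 ^ (u - G - 1) = 4 * 2 ^ (u - G - 3) := by
      have : u - G - 1 = (u - G - 3) + 2 := by clear * - s9; omega
      rw [this, pow_add]; ring
    have h5 : 2 ^ (u - G - 2) = 2 * 2 ^ (u - G - 3) := by
      have : u - G - 2 = (u - G - 3) + 1 := by clear * - s9; omega
      rw [this, pow_succ]; ring
    rw [h4] at h1
    rw [h5]
    clear * - h1
    omega
  have hper : ∀ y : ℕ, ∃ (S : Finset ℕ) (δ : ℕ → ℕ), y ∈ Y →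
      2 ^ (μ1 - (3 * G + Jp + (n + 2) + 4)) ≤ S.card ∧ ∀ m ∈ S,
      (∀ T ⊆ range J, m + ∑ i ∈ T, δ i < 2 ^ (μ1 + 2)) ∧
      Cb J m δ (fun z => ∏ i ∈ I, (sg ((P i).eval (x y + 2 ^ k * z)) *
        sg ((P i).eval (x y + 2 ^ (k + 1) * z)))) = -1 := by
    intro y
    by_cases hy : y ∈ Y
    · obtain ⟨hy1, hy2, hy3⟩ := mem_filter.1 hy
      obtain ⟨S, δ, h1⟩ := perG P I i0 hi0 n J h k v vp κ G Jp K q (x y) u μ0 μ1 hd hJ hG hK
        (by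
          change 2 ^ u ≤ 2 ^ u + 2 ^ (G + 1) * y + 1
          exact (Nat.le_add_right _ _).trans (Nat.le_add_right _ _)) hu (hxlt y hy1) (by
          have e1 : x y = 1 + 2 ^ (G + 1) * (2 ^ (u - G - 1) + y) := by
            change 2 ^ u + 2 ^ (G + 1) * y + 1 = _
            rw [hGu]; ring
          have h2 : x y ≡ 1 [MOD 2 ^ (G + 1)] := by
            rw [e1]
            exact Nat.ModEq.add_left 1 (Nat.modEq_zero_iff_dvd.2 (Dvd.intro _ rfl))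
          exact h2.of_dvd (pow_dvd_pow 2 (Nat.le_succ G))) hq hv hκ hvp hμ1 hμ0 hk hh
        (fun T hT hne => by
          have h2 := hy2 T (mem_erase.2 ⟨nonempty_iff_ne_empty.1 hne, mem_powerset.2 hT⟩)
          refine not_bad _ (J * h) Jp _ s4 rfl fun h3 => h2 (mem_filter.2 ⟨hy1, h3⟩))
        (fun i hi hne g hg0 hg β hβ hdvd => hy3 i (mem_erase.2 ⟨hne, hi⟩)
          (mem_filter.2 ⟨hy1, g, hg0, hg, β, hβ, hdvd⟩))
      exact ⟨S, δ, fun _ => h1⟩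
    · exact ⟨∅, fun _ => 0, fun h => absurd h hy⟩
  choose S δ hSδ using hper
  set F : Finset (Σ _ : ℕ, ℕ) := Y.sigma S with hF
  have hFcard : 2 ^ (2 * (J + 1) * h) ≤ F.card := by
    rw [hF, card_sigma]
    have e0 : 2 * (J + 1) * h = 2 * (J * h) + 2 * h := by ring
    calc 2 ^ (2 * (J + 1) * h) ≤ 2 ^ ((u - G - 2) + (μ1 - (3 * G + Jp + (n + 2) + 4))) :=
          Nat.pow_le_pow_right (by norm_num) (by rw [e0]; exact s8)
      _ = 2 ^ (u - G - 2) * 2 ^ (μ1 - (3 * G + Jp + (n + 2) + 4)) := pow_add _ _ _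
      _ ≤ Y.card * 2 ^ (μ1 - (3 * G + Jp + (n + 2) + 4)) := Nat.mul_le_mul_right _ cY
      _ = Y.card • 2 ^ (μ1 - (3 * G + Jp + (n + 2) + 4)) := (smul_eq_mul _ _).symm
      _ ≤ _ := card_nsmul_le_sum _ _ _ fun y hy => (hSδ y hy).1
  set R := (range N).filter fun m => ∏ i ∈ I, sg ((P i).eval m) = ε with hR
  -- the maps
  set f : Finset ℕ × ℕ → (Σ _ : ℕ, ℕ) → ℕ := fun τ p =>
    x p.1 + 2 ^ (k + τ.2) * (p.2 + ∑ i ∈ τ.1, δ p.1 i) with hf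
  have hYr : ∀ y ∈ Y, y ∈ range (2 ^ (u - G - 1)) := fun y hy => (mem_filter.1 hy).1
  clear s6 s7 s8 hN hn1 hk hh hμ1 hμ1' hκ1 hvp hv hq hJp
  have hone : ∀ τ, (F.filter fun p => f τ p ∈ R).card ≤ R.card := by
    intro τ
    refine card_le_card_of_injOn (f τ) (fun p hp => (mem_filter.1 (mem_coe.1 hp)).2) ?_
    have hdiv : ∀ p ∈ F, f τ p / 2 ^ (k + τ.2) = p.2 + ∑ i ∈ τ.1, δ p.1 i ∧
        f τ p % 2 ^ (k + τ.2) = x p.1 := by
      intro p hp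
      have h1 := hYr _ (mem_sigma.1 hp).1
      have h2 : x p.1 < 2 ^ (k + τ.2) := (hxlt _ h1).trans_le
        (Nat.pow_le_pow_right (by norm_num) (hμk.trans (Nat.le_add_right _ _)))
      constructor
      · change (x p.1 + 2 ^ (k + τ.2) * (p.2 + ∑ i ∈ τ.1, δ p.1 i)) / 2 ^ (k + τ.2) = _
        rw [Nat.add_mul_div_left _ _ (by positivity), Nat.div_eq_of_lt h2, zero_add]
      · change (x p.1 + 2 ^ (k + τ.2) * (p.2 + ∑ i ∈ τ.1, δ p.1 i)) % 2 ^ (k + τ.2) = _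
        rw [Nat.add_mul_mod_self_left, Nat.mod_eq_of_lt h2]
    intro p hp q hq hpq
    obtain ⟨h1, h2⟩ := hdiv p (mem_filter.1 (mem_coe.1 hp)).1
    obtain ⟨h3, h4⟩ := hdiv q (mem_filter.1 (mem_coe.1 hq)).1
    rw [hpq] at h1 h2
    have h5 : x p.1 = x q.1 := h2.symm.trans h4
    have h6 : p.1 = q.1 := by
      have h7 : 2 ^ u + 2 ^ (G + 1) * p.1 + 1 = 2 ^ u + 2 ^ (G + 1) * q.1 + 1 := h5
      exact Nat.eq_of_mul_eq_mul_left (by positivity : 0 < 2 ^ (G + 1))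
        (Nat.add_left_cancel (Nat.add_right_cancel h7))
    have h8 : p.2 = q.2 := by
      have h9 := h1.symm.trans h3
      rw [h6] at h9
      exact Nat.add_right_cancel h9
    exact Sigma.ext h6 (heq_of_eq h8)
  have hbd : ∀ τ : Finset ℕ × ℕ, τ.2 ≤ 1 → τ.1 ⊆ range J → ∀ p ∈ F, f τ p < N := by
    intro τ hτ hτJ p hp
    obtain ⟨hp1, hp2⟩ := mem_sigma.1 hp
    have hlt := ((hSδ p.1 hp1).2 p.2 hp2).1 τ.1 hτJ
    refine lt_of_lt_of_le ?_ hN'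
    have h3 : x p.1 < 2 ^ (k + τ.2) := (hxlt _ (hYr _ hp1)).trans_le
      (Nat.pow_le_pow_right (by norm_num) (hμk.trans (Nat.le_add_right _ _)))
    calc x p.1 + 2 ^ (k + τ.2) * (p.2 + ∑ i ∈ τ.1, δ p.1 i)
        < 2 ^ (k + τ.2) + 2 ^ (k + τ.2) * (p.2 + ∑ i ∈ τ.1, δ p.1 i) :=
          Nat.add_lt_add_right h3 _
      _ = 2 ^ (k + τ.2) * (p.2 + ∑ i ∈ τ.1, δ p.1 i + 1) := by ring
      _ ≤ 2 ^ (k + τ.2) * 2 ^ (μ1 + 2) := Nat.mul_le_mul_left _ hlt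
      _ ≤ 2 ^ (μ1 + k + 3) := by
          rw [← pow_add]
          exact Nat.pow_le_pow_right (by norm_num) (by clear * - hτ; omega)
  have hcov : F ⊆ ((range J).powerset ×ˢ range 2).biUnion fun τ =>
      F.filter fun p => f τ p ∈ R := by
    intro p hp
    obtain ⟨h1, h2⟩ := mem_sigma.1 hp
    have hC := ((hSδ p.1 h1).2 p.2 h2).2
    simp only [prod_mul_distrib] at hC
    obtain ⟨T, hT, h3⟩ := exists_sign J p.2 (δ p.1)
      (fun z => ∏ i ∈ I, sg ((P i).eval (x p.1 + 2 ^ k * z)))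
      (fun z => ∏ i ∈ I, sg ((P i).eval (x p.1 + 2 ^ (k + 1) * z)))
      ε hε (fun _ => prod_sg _ _) (fun _ => prod_sg _ _) hC
    rcases h3 with h3 | h3
    · exact mem_biUnion.2 ⟨(T, 0), mem_product.2 ⟨hT, mem_range.2 (by norm_num)⟩, mem_filter.2 ⟨hp, mem_filter.2
        ⟨mem_range.2 (hbd (T, 0) (by norm_num) (mem_powerset.1 hT) p hp), h3⟩⟩⟩
    · exact mem_biUnion.2 ⟨(T, 1), mem_product.2 ⟨hT, mem_range.2 (by norm_num)⟩, mem_filter.2 ⟨hp, mem_filter.2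
        ⟨mem_range.2 (hbd (T, 1) le_rfl (mem_powerset.1 hT) p hp), h3⟩⟩⟩
  calc 2 ^ (2 * (J + 1) * h) ≤ F.card := hFcard
    _ ≤ _ := card_le_card hcov
    _ ≤ ((range J).powerset ×ˢ range 2).card * R.card :=
        card_biUnion_le_card_mul _ _ _ fun τ _ => hone τ
    _ = 2 ^ (J + 1) * R.card := by
        rw [card_product, card_powerset, card_range, card_range, pow_succ]

end Pool.Agent.Lib.MP_8fac0f_nt.OY
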